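import Pool.Agent.KLev.Halving
import Pool.Agent.Results.MP_a08d0a_co.IidLevel

/-! Lines through two points of a finite planar set with `k` points on one side, and the crossings
of the dual lines. -/

set_option autoImplicit false

namespace Pool.Agent.V11162.Halv

open Finset KLev.Halving Pool.Agent.H189R2.Lev
open Pool.Agent.Results.MP_a08d0a_co.IidLevel (Simple crossings count3)
open scoped ENNReal

variable {n : ℕ}

open scoped Classical in
/-- the set of the points `P l` -/
noncomputable def pts (P : Fin n → ℝ × ℝ) : Finset (ℝ × ℝ) := univ.image P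

open scoped Classical in
/-- `L` is a line through two points of `P` with exactly `k` points of `P` on one side -/
def KLine (P : Finset (ℝ × ℝ)) (k : ℕ) (L : Set (ℝ × ℝ)) : Prop :=
  ∃ a b c : ℝ, (a ≠ 0 ∨ b ≠ 0) ∧ L = Line a b c ∧
    (∃ p ∈ P, ∃ q ∈ P, p ≠ q ∧ p ∈ L ∧ q ∈ L) ∧
    (P.filter (fun p => a * p.1 + b * p.2 < c)).card = k

/-- the pairs `i < j` such that exactly `k` points are below, or exactly `k` points are above the
line through the points `i` and `j` -/
def Pairs (a B : Fin n → ℝ) (k : ℕ) : Set (Fin n × Fin n) :=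
  {q | q.1 < q.2 ∧ a q.1 ≠ a q.2 ∧
    ({l | ht a B l (cr a B q.1 q.2) < ht a B q.1 (cr a B q.1 q.2)}.ncard = k ∨
      {l | ht a B q.1 (cr a B q.1 q.2) < ht a B l (cr a B q.1 q.2)}.ncard = k)}

/-- the line through the points `q.1` and `q.2` -/
noncomputable def LL (a B : Fin n → ℝ) (q : Fin n × Fin n) : Set (ℝ × ℝ) :=
  Line (cr a B q.1 q.2) 1 (ht a B q.1 (cr a B q.1 q.2))

section det

variable {a B : Fin n → ℝ}

theorem inj_pt (ha : Function.Injective a) :
    Function.Injective (fun l => ((a l, B l) : ℝ × ℝ)) := fun _ _ h =>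
  ha (congrArg Prod.fst h)

theorem card_pts (ha : Function.Injective a) : (pts fun l => (a l, B l)).card = n := by
  classical
  unfold pts
  rw [card_image_of_injective _ (inj_pt ha), card_univ, Fintype.card_fin]

open scoped Classical in
theorem card_filter_pts (ha : Function.Injective a) (s : ℝ × ℝ → Prop) :
    ((pts fun l => (a l, B l)).filter s).card = {l | s (a l, B l)}.ncard := by
  unfold pts
  rw [filter_image, card_image_of_injective _ (inj_pt ha), ← Set.ncard_coe_finset]
  congr 1
  ext l
  simp

/-- the parameters of a line through two of the points -/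
theorem line_param {i j : Fin n} (hij : a i ≠ a j) {u v w : ℝ} (huv : u ≠ 0 ∨ v ≠ 0)
    (hi : u * a i + v * B i = w) (hj : u * a j + v * B j = w) :
    v ≠ 0 ∧ cr a B i j = u / v ∧ ht a B i (cr a B i j) = w / v := by
  have hd : a i - a j ≠ 0 := sub_ne_zero.2 hij
  have hv : v ≠ 0 := by
    intro hv
    subst hv
    have hu : u ≠ 0 := by tauto
    have : u * (a i - a j) = 0 := by linarith
    rcases mul_eq_zero.1 this with h | h
    · exact hu h
    · exact hd h
  have h1 : cr a B i j = u / v := by
    unfold cr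
    rw [div_eq_div_iff hd hv]
    linarith
  refine ⟨hv, h1, ?_⟩
  unfold ht
  rw [h1, eq_div_iff hv]
  field_simp
  linarith

theorem mem_LL_left (q : Fin n × Fin n) : ((a q.1, B q.1) : ℝ × ℝ) ∈ LL a B q := by
  change cr a B q.1 q.2 * a q.1 + 1 * B q.1 = ht a B q.1 (cr a B q.1 q.2)
  unfold ht
  ring

theorem mem_LL_right {q : Fin n × Fin n} (h : a q.1 ≠ a q.2) :
    ((a q.2, B q.2) : ℝ × ℝ) ∈ LL a B q := by
  change cr a B q.1 q.2 * a q.2 + 1 * B q.2 = ht a B q.1 (cr a B q.1 q.2)
  have h0 : a q.1 - a q.2 ≠ 0 := sub_ne_zero.2 h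
  unfold ht cr
  field_simp
  ring

/-- a point on the line of the pair is one of the two points -/
theorem eq_of_mem_LL (hS : Simple a B) {q : Fin n × Fin n} (hq : q.1 ≠ q.2) (h : a q.1 ≠ a q.2)
    {l : Fin n} (hl : ((a l, B l) : ℝ × ℝ) ∈ LL a B q) : l = q.1 ∨ l = q.2 := by
  by_contra hcon
  push Not at hcon
  have h1 : cr a B q.1 q.2 * a l + 1 * B l = ht a B q.1 (cr a B q.1 q.2) := hl
  have h2 : cr a B q.1 q.2 * a q.2 + 1 * B q.2 = ht a B q.1 (cr a B q.1 q.2) := mem_LL_right h
  refine hS.2 q.1 q.2 l hq (Ne.symm hcon.1) (Ne.symm hcon.2) ⟨cr a B q.1 q.2, ?_, ?_⟩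
  · rw [← h2]; unfold ht; ring
  · rw [← h1]; unfold ht; ring

theorem general_position (ha : Function.Injective a) (hS : Simple a B) :
    GeneralPosition (pts fun l => (a l, B l)) := by
  classical
  intro u v w huv p hp q hq r hr hpq hpr hqr h
  unfold pts at hp hq hr
  rw [mem_image] at hp hq hr
  obtain ⟨i, -, rfl⟩ := hp
  obtain ⟨j, -, rfl⟩ := hq
  obtain ⟨l, -, rfl⟩ := hr
  have hij : i ≠ j := fun e => hpq (by rw [e])
  have hil : i ≠ l := fun e => hpr (by rw [e])
  have hjl : j ≠ l := fun e => hqr (by rw [e])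
  have e1 : u * a i + v * B i = w := h.1
  have e2 : u * a j + v * B j = w := h.2.1
  have e3 : u * a l + v * B l = w := h.2.2
  obtain ⟨h1, h2, h3⟩ := line_param (fun e => hij (ha e)) huv e1 e2
  refine hS.2 i j l hij hil hjl ⟨u / v, ?_, ?_⟩
  · unfold ht
    field_simp
    linarith
  · unfold ht
    field_simp
    linarith

theorem LL_inj (ha : Function.Injective a) (hS : Simple a B) {q r : Fin n × Fin n}
    (hq : q.1 < q.2) (hr : r.1 < r.2) (h : LL a B q = LL a B r) : q = r := by
  have hqa : a q.1 ≠ a q.2 := fun e => hq.ne (ha e)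
  have hra : a r.1 ≠ a r.2 := fun e => hr.ne (ha e)
  have h1 := eq_of_mem_LL hS hr.ne hra (l := q.1) (h ▸ mem_LL_left q)
  have h2 := eq_of_mem_LL hS hr.ne hra (l := q.2) (h ▸ mem_LL_right hqa)
  have h3 := hq.ne
  rcases h1 with h1 | h1 <;> rcases h2 with h2 | h2
  · exact absurd (h1.trans h2.symm) h3
  · exact Prod.ext h1 h2
  · rw [h1, h2] at hq
    exact absurd hq (lt_asymm hr)
  · exact absurd (h1.trans h2.symm) h3

/-- the lines with `k` points on one side correspond to the pairs -/
theorem klines_eq (ha : Function.Injective a) (k : ℕ) :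
    {L | KLine (pts fun l => (a l, B l)) k L} = LL a B '' Pairs a B k := by
  classical
  ext L
  constructor
  · rintro ⟨u, v, w, huv, rfl, ⟨p, hp, q, hq, hpq, hpL, hqL⟩, hk⟩
    unfold pts at hp hq
    rw [mem_image] at hp hq
    obtain ⟨i, -, rfl⟩ := hp
    obtain ⟨j, -, rfl⟩ := hq
    have hij : i ≠ j := fun e => hpq (by rw [e])
    rw [card_filter_pts ha] at hk
    -- order the two points
    have key : ∀ i j : Fin n, i < j → u * a i + v * B i = w → u * a j + v * B j = w →
        Line u v w ∈ LL a B '' Pairs a B k := by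
      intro i j hij e1 e2
      have haij : a i ≠ a j := fun e => hij.ne (ha e)
      obtain ⟨hv, h1, h2⟩ := line_param haij huv e1 e2
      refine ⟨(i, j), ⟨hij, haij, ?_⟩, ?_⟩
      · change {l | ht a B l (cr a B i j) < ht a B i (cr a B i j)}.ncard = k ∨
          {l | ht a B i (cr a B i j) < ht a B l (cr a B i j)}.ncard = k
        rw [h2, h1]
        rcases lt_or_gt_of_ne hv with hv | hv
        · right
          rw [← hk]
          congr 1
          ext l
          change w / v < a l * (u / v) + B l ↔ u * a l + v * B l < w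
          rw [show a l * (u / v) + B l = (u * a l + v * B l) / v by
            field_simp]
          exact div_lt_div_right_of_neg hv
        · left
          rw [← hk]
          congr 1
          ext l
          change a l * (u / v) + B l < w / v ↔ u * a l + v * B l < w
          rw [show a l * (u / v) + B l = (u * a l + v * B l) / v by
            field_simp]
          exact div_lt_div_iff_of_pos_right hv
      · change Line (cr a B i j) 1 (ht a B i (cr a B i j)) = Line u v w
        rw [h2, h1]
        ext p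
        change u / v * p.1 + 1 * p.2 = w / v ↔ u * p.1 + v * p.2 = w
        rw [show u / v * p.1 + 1 * p.2 = (u * p.1 + v * p.2) / v by field_simp]
        exact div_left_inj' hv
    rcases lt_or_gt_of_ne hij with h | h
    · exact key i j h hpL hqL
    · exact key j i h hqL hpL
  · rintro ⟨q, ⟨hq, hqa, hk⟩, rfl⟩
    have hpts : ∃ p ∈ (pts fun l => (a l, B l)), ∃ p' ∈ (pts fun l => (a l, B l)),
        p ≠ p' ∧ p ∈ LL a B q ∧ p' ∈ LL a B q := by
      refine ⟨(a q.1, B q.1), ?_, (a q.2, B q.2), ?_, ?_, mem_LL_left q, mem_LL_right hqa⟩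
      · unfold pts; exact mem_image_of_mem _ (mem_univ _)
      · unfold pts; exact mem_image_of_mem _ (mem_univ _)
      · intro e
        exact hqa (congrArg Prod.fst e)
    rcases hk with hk | hk
    · refine ⟨cr a B q.1 q.2, 1, ht a B q.1 (cr a B q.1 q.2), Or.inr one_ne_zero, rfl, hpts, ?_⟩
      rw [card_filter_pts ha, ← hk]
      congr 1
      ext l
      change cr a B q.1 q.2 * a l + 1 * B l < _ ↔ a l * cr a B q.1 q.2 + B l < _
      rw [one_mul, mul_comm]
    · refine ⟨-cr a B q.1 q.2, -1, -ht a B q.1 (cr a B q.1 q.2),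
        Or.inr (by norm_num), ?_, hpts, ?_⟩
      · ext p
        change cr a B q.1 q.2 * p.1 + 1 * p.2 = ht a B q.1 (cr a B q.1 q.2) ↔
          -cr a B q.1 q.2 * p.1 + -1 * p.2 = -ht a B q.1 (cr a B q.1 q.2)
        constructor <;> intro h <;> linarith
      · rw [card_filter_pts ha, ← hk]
        congr 1
        ext l
        change -cr a B q.1 q.2 * a l + -1 * B l < -ht a B q.1 (cr a B q.1 q.2) ↔
          ht a B q.1 (cr a B q.1 q.2) < a l * cr a B q.1 q.2 + B l
        constructor <;> intro h <;> linarith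

theorem encard_klines (ha : Function.Injective a) (hS : Simple a B) (k : ℕ) :
    {L | KLine (pts fun l => (a l, B l)) k L}.encard = ((Pairs a B k).ncard : ℕ∞) := by
  rw [klines_eq ha, Set.InjOn.encard_image, Set.Finite.cast_ncard_eq (Set.toFinite _)]
  intro q hq r hr h
  exact LL_inj ha hS hq.1 hr.1 h

/-- counting the points on the two sides -/
theorem sides (hS : Simple a B) {q : Fin n × Fin n} (hq : q.1 ≠ q.2) (h : a q.1 ≠ a q.2) :
    {l | ht a B q.1 (cr a B q.1 q.2) < ht a B l (cr a B q.1 q.2)}.ncard +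
      {l | ht a B l (cr a B q.1 q.2) < ht a B q.1 (cr a B q.1 q.2)}.ncard + 2 = n := by
  apply count3 hS hq
  have := mem_LL_right (B := B) h
  change cr a B q.1 q.2 * a q.2 + 1 * B q.2 = ht a B q.1 (cr a B q.1 q.2) at this
  rw [← this]
  unfold ht
  ring

theorem pairs_empty (hS : Simple a B) {k : ℕ} (hk : n < k + 2) : Pairs a B k = ∅ := by
  rw [Set.eq_empty_iff_forall_notMem]
  rintro q ⟨h1, h2, h3⟩
  have := sides hS h1.ne h2
  omega

theorem pairs_le (hS : Simple a B) {k : ℕ} (hk : k + 2 ≤ n) :
    (Pairs a B k).ncard ≤ (crossings a B k).ncard + (crossings a B (n - 2 - k)).ncard := by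
  refine le_trans (Set.ncard_le_ncard ?_ (Set.toFinite _)) (Set.ncard_union_le _ _)
  rintro q ⟨h1, h2, h3⟩
  rcases h3 with h3 | h3
  · exact Or.inl ⟨h1, h2, h3⟩
  · refine Or.inr ⟨h1, h2, ?_⟩
    have := sides hS h1.ne h2
    omega

/-- for half the points only one of the two levels is needed -/
theorem pairs_le_half (hS : Simple a B) {k : ℕ} (hk : 2 * k + 2 = n) :
    (Pairs a B k).ncard ≤ (crossings a B k).ncard := by
  refine Set.ncard_le_ncard ?_ (Set.toFinite _)
  rintro q ⟨h1, h2, h3⟩
  refine ⟨h1, h2, ?_⟩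
  have := sides hS h1.ne h2
  omega

/-- the bisectors of an odd number of points -/
theorem bisectors_odd (ha : Function.Injective a) (hS : Simple a B) (hn : ¬ Even n) :
    {L | IsBisector (pts fun l => (a l, B l)) L} = ∅ := by
  classical
  rw [Set.eq_empty_iff_forall_notMem]
  rintro L ⟨u, v, w, huv, rfl, ⟨p, hp, q, hq, hpq, hpL, hqL⟩, hk, hk'⟩
  unfold pts at hp hq
  rw [mem_image] at hp hq
  obtain ⟨i, -, rfl⟩ := hp
  obtain ⟨j, -, rfl⟩ := hq
  have hij : i ≠ j := fun e => hpq (by rw [e])
  rw [card_filter_pts ha, card_pts ha] at hk hk'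
  have haij : a i ≠ a j := fun e => hij (ha e)
  obtain ⟨hv, h1, h2⟩ := line_param haij huv hpL hqL
  have h3 := sides hS (q := (i, j)) hij haij
  simp only at h3
  rw [h2, h1] at h3
  have e1 : ∀ l, ht a B l (u / v) = (u * a l + v * B l) / v := by
    intro l; unfold ht; field_simp
  simp only [e1] at h3
  rcases lt_or_gt_of_ne hv with hv | hv
  · have f1 : {l | w / v < (u * a l + v * B l) / v} = {l | u * a l + v * B l < w} := by
      ext l; exact div_lt_div_right_of_neg hv
    have f2 : {l | (u * a l + v * B l) / v < w / v} = {l | w < u * a l + v * B l} := by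
      ext l; exact div_lt_div_right_of_neg hv
    rw [f1, f2] at h3
    apply hn
    rw [Nat.even_iff]
    simp only at hk hk'
    omega
  · have f1 : {l | w / v < (u * a l + v * B l) / v} = {l | w < u * a l + v * B l} := by
      ext l; exact div_lt_div_iff_of_pos_right hv
    have f2 : {l | (u * a l + v * B l) / v < w / v} = {l | u * a l + v * B l < w} := by
      ext l; exact div_lt_div_iff_of_pos_right hv
    rw [f1, f2] at h3
    apply hn
    rw [Nat.even_iff]
    simp only at hk hk'
    omega

/-- the bisectors of an even number of points -/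
theorem bisectors_even (ha : Function.Injective a) (hS : Simple a B) {m : ℕ} (hn : n = 2 * m + 2) :
    {L | IsBisector (pts fun l => (a l, B l)) L} = {L | KLine (pts fun l => (a l, B l)) m L} := by
  classical
  have hm : n / 2 - 1 = m := by omega
  ext L
  constructor
  · rintro ⟨u, v, w, huv, hL, h, hk, -⟩
    rw [card_pts ha, hm] at hk
    exact ⟨u, v, w, huv, hL, h, hk⟩
  · rintro ⟨u, v, w, huv, rfl, ⟨p, hp, q, hq, hpq, hpL, hqL⟩, hk⟩
    refine ⟨u, v, w, huv, rfl, ⟨p, hp, q, hq, hpq, hpL, hqL⟩, by rw [card_pts ha, hm]; exact hk, ?_⟩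
    unfold pts at hp hq
    rw [mem_image] at hp hq
    obtain ⟨i, -, rfl⟩ := hp
    obtain ⟨j, -, rfl⟩ := hq
    have hij : i ≠ j := fun e => hpq (by rw [e])
    rw [card_filter_pts ha] at hk
    rw [card_filter_pts ha, card_pts ha, hm]
    have haij : a i ≠ a j := fun e => hij (ha e)
    obtain ⟨hv, h1, h2⟩ := line_param haij huv hpL hqL
    have h3 := sides hS (q := (i, j)) hij haij
    simp only at h3
    rw [h2, h1] at h3
    have e1 : ∀ l, ht a B l (u / v) = (u * a l + v * B l) / v := by
      intro l; unfold ht; field_simp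
    simp only [e1] at h3
    rcases lt_or_gt_of_ne hv with hv | hv
    · have f1 : {l | w / v < (u * a l + v * B l) / v} = {l | u * a l + v * B l < w} := by
        ext l; exact div_lt_div_right_of_neg hv
      have f2 : {l | (u * a l + v * B l) / v < w / v} = {l | w < u * a l + v * B l} := by
        ext l; exact div_lt_div_right_of_neg hv
      rw [f1, f2] at h3
      simp only at hk ⊢
      omega
    · have f1 : {l | w / v < (u * a l + v * B l) / v} = {l | w < u * a l + v * B l} := by
        ext l; exact div_lt_div_iff_of_pos_right hv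
      have f2 : {l | (u * a l + v * B l) / v < w / v} = {l | u * a l + v * B l < w} := by
        ext l; exact div_lt_div_iff_of_pos_right hv
      rw [f1, f2] at h3
      simp only at hk ⊢
      omega

end det

end Pool.Agent.V11162.Halv
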