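import Pool.Agent.V11162.AndreCore

/-!
The collision theorem for conics in Andre planes of order q^3.
-/

open Finset

namespace Pool.Agent.V11162.AndreCol

open Pool.Agent.V11162.Hermite3 Pool.Agent.V11162.AndreCore

variable {K : Type} [Field K] [Fintype K] [CharP K 2]

/-- `a y + b σ y` as an additive map. -/
def LL (σ : K →+* K) (a b : K) : K →+ K where
  toFun y := a * y + b * σ y
  map_zero' := by simp
  map_add' := by
    intro x y
    rw [map_add]
    ring

omit [Fintype K] [CharP K 2] in
lemma LL_apply (σ : K →+* K) (a b y : K) : LL σ a b y = a * y + b * σ y := rfl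

/-- The squaring of an additive map. -/
def sq (f : K →+ K) : K →+ K where
  toFun y := f y ^ 2
  map_zero' := by simp
  map_add' := by
    intro x y
    rw [map_add, CharTwo.add_sq]

/-- An iterated Frobenius power of an additive map. -/
def fpow (r : ℕ) (f : K →+ K) : K →+ K where
  toFun y := f y ^ 2 ^ r
  map_zero' := by simp
  map_add' := by
    intro x y
    rw [map_add, add_pow_char_pow]

omit [Fintype K] in
lemma ker_LL {h : ℕ} (σ : K →+* K) (hσk : ∀ x, x ∈ kk K h ↔ σ x = x) {a b a' b' : K}
    (hD0 : a' * b + b' * a ≠ 0) (y0 : K) (hy0 : y0 ≠ 0) (h0 : LL σ a b y0 = 0) (y : K) :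
    LL σ a b y = 0 ↔ ∃ l ∈ kk K h, y = l * y0 := by
  rw [LL_apply] at h0 ⊢
  have two : (2 : K) = 0 := CharTwo.two_eq_zero
  have hb : b ≠ 0 := by
    rintro rfl
    rw [zero_mul, add_zero] at h0
    have ha := (mul_eq_zero.mp h0).resolve_right hy0
    apply hD0
    rw [ha]
    ring
  constructor
  · intro hy
    have h1 : b * (σ y * y0 - σ y0 * y) = 0 := by
      linear_combination y0 * hy - y * h0
    have h2 : σ y * y0 - σ y0 * y = 0 := (mul_eq_zero.mp h1).resolve_left hb
    refine ⟨y / y0, ?_, by field_simp⟩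
    rw [hσk, map_div₀]
    have hs0 : σ y0 ≠ 0 := (map_ne_zero σ).mpr hy0
    rw [div_eq_div_iff hs0 hy0]
    linear_combination h2
  · rintro ⟨l, hl, rfl⟩
    have h1 := (hσk l).mp hl
    rw [map_mul, h1]
    linear_combination l * h0

omit [Fintype K] in
lemma LL_lin {h : ℕ} (σ : K →+* K) (hσk : ∀ x, x ∈ kk K h ↔ σ x = x) (a b : K) (l : K)
    (hl : l ∈ kk K h) (y : K) : LL σ a b (l * y) = l * LL σ a b y := by
  rw [LL_apply, LL_apply, map_mul, (hσk l).mp hl]
  ring

omit [Fintype K] in
/-- The adjugate identity. -/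
lemma adj (σ : K →+* K) (hσ3 : ∀ x, σ (σ (σ x)) = x) (a b y : K) :
    σ a * σ (σ a) * LL σ a b y + b * σ (σ a) * σ (LL σ a b y) +
      b * σ b * σ (σ (LL σ a b y)) = (a * σ a * σ (σ a) + b * σ b * σ (σ b)) * y := by
  have two : (2 : K) = 0 := CharTwo.two_eq_zero
  simp only [LL_apply, map_add, map_mul, hσ3]
  linear_combination (σ a * σ (σ a) * b * σ y + b * σ b * σ (σ a) * σ (σ y)) * two

theorem core {h : ℕ} (hK : Fintype.card K = 2 ^ (3 * h)) (hh : 2 ≤ h) (σ : K →+* K)
    (hσ3 : ∀ x, σ (σ (σ x)) = x) (hσk : ∀ x, x ∈ kk K h ↔ σ x = x)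
    (hσp : ∀ c0 c1 c2 : K, (∀ w, c0 * w + c1 * σ w + c2 * σ (σ w) = 0) →
      c0 = 0 ∧ c1 = 0 ∧ c2 = 0)
    (hσm : ∀ c0 c1 c2 : K, (∀ w, w ≠ 0 → c0 * w + c1 * σ w + c2 * σ (σ w) ≠ 0) →
      (∀ w w', w ≠ 0 → w' ≠ 0 → (c0 * w + c1 * σ w + c2 * σ (σ w)) * w' ^ 2 =
        (c0 * w' + c1 * σ w' + c2 * σ (σ w')) * w ^ 2 → w = w') →
      (c0 = 0 ∨ c1 = 0) ∧ (c0 = 0 ∨ c2 = 0) ∧ (c1 = 0 ∨ c2 = 0))
    (a b a' b' : K) (hD0 : a' * b + b' * a ≠ 0) (h1 : ¬ (a = 0 ∧ b' = 0))
    (h2 : ¬ (b = 0 ∧ a' = 0)) :
    ∃ y y', LL σ a b y ≠ 0 ∧ LL σ a b y' ≠ 0 ∧ LL σ a' b' y ≠ 0 ∧ LL σ a' b' y' ≠ 0 ∧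
      (∀ l ∈ kk K h, y' ≠ l * y) ∧ ∃ μ ∈ kk K h, μ ≠ 0 ∧
        LL σ a' b' y' * LL σ a b y ^ 2 = μ * (LL σ a' b' y * LL σ a b y' ^ 2) := by
  classical
  have two : (2 : K) = 0 := CharTwo.two_eq_zero
  have h11 : 1 ≤ h := by omega
  have hD0' : a * b' + b * a' ≠ 0 := by
    intro h; apply hD0; linear_combination h
  by_cases kt : ∃ y, y ≠ 0 ∧ LL σ a b y = 0
  · obtain ⟨yt, hyt, hyt0⟩ := kt
    by_cases kn : ∃ y, y ≠ 0 ∧ LL σ a' b' y = 0
    · -- both kernels
      obtain ⟨yn, hyn, hyn0⟩ := kn
      -- an element of the subfield different from 0 and 1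
      obtain ⟨l0, hl0k, hl00, hl01⟩ : ∃ l ∈ kk K h, l ≠ 0 ∧ l ≠ 1 := by
        by_contra hno
        push Not at hno
        have hinj : Function.Injective
            (fun x : kk K h => if (x : K) = 0 then (0 : Fin 2) else 1) := by
          intro x x' hxx
          simp only at hxx
          by_cases hx : (x : K) = 0
          · by_cases hx' : (x' : K) = 0
            · exact Subtype.ext (hx.trans hx'.symm)
            · rw [if_pos hx, if_neg hx'] at hxx
              exact absurd hxx (by decide)
          · by_cases hx' : (x' : K) = 0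
            · rw [if_neg hx, if_pos hx'] at hxx
              exact absurd hxx (by decide)
            · exact Subtype.ext ((hno x x.2 hx).trans (hno x' x'.2 hx').symm)
        have h2 := Nat.card_le_card_of_injective _ hinj
        rw [card_kk hK h11, Nat.card_eq_fintype_card, Fintype.card_fin] at h2
        have h3 : 2 ^ 2 ≤ 2 ^ h := Nat.pow_le_pow_right (by norm_num) hh
        omega
      -- no common kernel
      have hnc : ∀ y, LL σ a b y = 0 → LL σ a' b' y = 0 → y = 0 := by
        intro y hy hy'
        rw [LL_apply] at hy hy'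
        by_contra hy0
        apply hD0
        have : (a' * b + b' * a) * y = 0 := by
          linear_combination b * hy' + b' * hy - (b * b' * σ y) * two
        exact (mul_eq_zero.mp this).resolve_right hy0
      have htn : LL σ a b yn ≠ 0 := fun h => hyn (hnc yn h hyn0)
      have hnt : LL σ a' b' yt ≠ 0 := fun h => hyt (hnc yt hyt0 h)
      have e1 : ∀ l ∈ kk K h, LL σ a b (yn + l * yt) = LL σ a b yn := by
        intro l hl
        rw [map_add, LL_lin σ hσk a b l hl, hyt0, mul_zero, add_zero]
      have e2 : ∀ l ∈ kk K h, LL σ a' b' (yn + l * yt) = l * LL σ a' b' yt := by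
        intro l hl
        rw [map_add, LL_lin σ hσk a' b' l hl, hyn0, zero_add]
      have hone := (kk K h).one_mem
      refine ⟨yn + 1 * yt, yn + l0 * yt, ?_, ?_, ?_, ?_, ?_, l0, hl0k, hl00, ?_⟩
      · rw [e1 1 hone]; exact htn
      · rw [e1 l0 hl0k]; exact htn
      · rw [e2 1 hone]; exact mul_ne_zero one_ne_zero hnt
      · rw [e2 l0 hl0k]; exact mul_ne_zero hl00 hnt
      · intro l hl heq
        have e3 := congrArg (LL σ a b) heq
        rw [e1 l0 hl0k, LL_lin σ hσk a b l hl, e1 1 hone] at e3
        have hl1 : l = 1 := (mul_right_cancel₀ htn (by rw [one_mul]; exact e3)).symm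
        have e4 := congrArg (LL σ a' b') heq
        rw [e2 l0 hl0k, LL_lin σ hσk a' b' l hl, e2 1 hone, hl1, one_mul] at e4
        exact hl01 (mul_right_cancel₀ hnt e4)
      · rw [e1 1 hone, e1 l0 hl0k, e2 1 hone, e2 l0 hl0k]
        ring
    · -- `Lτ` has a kernel, `Ln` is injective
      push Not at kn
      have kn' : ∀ y, LL σ a' b' y = 0 → y = 0 := by
        intro y hy
        by_contra h
        exact kn y h hy
      obtain ⟨y, y', hy, hy', hne, μ, hμ, hμ0, heq⟩ := caseII hK hh (LL σ a' b') (sq (LL σ a b))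
        (fun l hl y => LL_lin σ hσk a' b' l hl y) kn' (fun x => x ^ 2)
        (fun l hl => (kk K h).pow_mem hl 2) (by
          intro l hl
          refine ⟨l ^ 2 ^ (h - 1), (kk K h).pow_mem hl _, ?_⟩
          rw [← pow_mul, ← pow_succ, Nat.sub_add_cancel h11]
          exact hl)
        (fun l _ h0 => (pow_eq_zero_iff two_ne_zero).mp h0) (by
          intro l _ h0
          have : (l + 1) ^ 2 = 0 := by rw [CharTwo.add_sq, h0, one_pow]; linear_combination two
          have := (pow_eq_zero_iff two_ne_zero).mp this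
          linear_combination this - two)
        (by
          intro l hl y
          change (LL σ a b (l * y)) ^ 2 = l ^ 2 * (LL σ a b y) ^ 2
          rw [LL_lin σ hσk a b l hl, mul_pow]) yt hyt (by
          intro y
          change (LL σ a b y) ^ 2 = 0 ↔ _
          rw [pow_eq_zero_iff two_ne_zero]
          exact ker_LL σ hσk hD0 yt hyt hyt0 y)
      change (LL σ a b y) ^ 2 ≠ 0 at hy
      change (LL σ a b y') ^ 2 ≠ 0 at hy'
      have hyz : y ≠ 0 := by rintro rfl; apply hy; simp
      have hyz' : y' ≠ 0 := by rintro rfl; apply hy'; simp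
      refine ⟨y, y', ?_, ?_, kn y hyz, kn y' hyz', hne, μ, hμ, hμ0, heq⟩
      · intro h; apply hy; rw [h]; simp
      · intro h; apply hy'; rw [h]; simp
  · push Not at kt
    have kt' : ∀ y, LL σ a b y = 0 → y = 0 := by
      intro y hy
      by_contra h
      exact kt y h hy
    by_cases kn : ∃ y, y ≠ 0 ∧ LL σ a' b' y = 0
    · obtain ⟨yn, hyn, hyn0⟩ := kn
      -- `Ln` has a kernel, `Lτ` is injective
      have hsq : ∀ x : K, (x ^ 2 ^ (3 * h - 1)) ^ 2 = x := by
        intro x
        rw [← pow_mul, ← pow_succ, Nat.sub_add_cancel (by omega : 1 ≤ 3 * h), ← hK]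
        exact FiniteField.pow_card x
      obtain ⟨y, y', hy, hy', hne, μ, hμ, hμ0, heq⟩ := caseII hK hh (LL σ a b)
        (fpow (3 * h - 1) (LL σ a' b'))
        (fun l hl y => LL_lin σ hσk a b l hl y) kt' (fun x => x ^ 2 ^ (3 * h - 1))
        (fun l hl => (kk K h).pow_mem hl _) (by
          intro l hl
          refine ⟨l ^ 2, (kk K h).pow_mem hl _, ?_⟩
          rw [← pow_mul, mul_comm 2, pow_mul]
          exact hsq l)
        (fun l _ h0 => by
          have := hsq l
          rw [h0] at this
          rw [← this]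
          simp) (by
          intro l _ h0
          have := hsq l
          rw [h0] at this
          rw [← this]
          simp)
        (by
          intro l hl y
          change (LL σ a' b' (l * y)) ^ 2 ^ (3 * h - 1) = _ * (LL σ a' b' y) ^ 2 ^ (3 * h - 1)
          rw [LL_lin σ hσk a' b' l hl, mul_pow]) yn hyn (by
          intro y
          change (LL σ a' b' y) ^ 2 ^ (3 * h - 1) = 0 ↔ _
          rw [pow_eq_zero_iff (by positivity)]
          exact ker_LL σ hσk hD0' yn hyn hyn0 y)
      change (LL σ a' b' y) ^ 2 ^ (3 * h - 1) ≠ 0 at hy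
      change (LL σ a' b' y') ^ 2 ^ (3 * h - 1) ≠ 0 at hy'
      change LL σ a b y' * (LL σ a' b' y) ^ 2 ^ (3 * h - 1) =
        μ * (LL σ a b y * (LL σ a' b' y') ^ 2 ^ (3 * h - 1)) at heq
      have hyz : y ≠ 0 := by rintro rfl; apply hy; simp
      have hyz' : y' ≠ 0 := by rintro rfl; apply hy'; simp
      have heq2 := congrArg (fun z => z ^ 2) heq
      simp only [mul_pow, hsq] at heq2
      have hln : LL σ a' b' y ≠ 0 := by
        intro h; apply hy; rw [h]; exact zero_pow (by positivity)
      have hln' : LL σ a' b' y' ≠ 0 := by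
        intro h; apply hy'; rw [h]; exact zero_pow (by positivity)
      refine ⟨y, y', kt y hyz, kt y' hyz', hln, hln', hne, (μ ^ 2)⁻¹,
        (kk K h).inv_mem ((kk K h).pow_mem hμ 2), inv_ne_zero (pow_ne_zero 2 hμ0), ?_⟩
      field_simp
      linear_combination -heq2
    · push Not at kn
      -- both injective
      by_contra hcon
      have Inj : ∀ y y' μ, y ≠ 0 → y' ≠ 0 → μ ∈ kk K h → μ ≠ 0 →
          LL σ a' b' y' * LL σ a b y ^ 2 = μ * (LL σ a' b' y * LL σ a b y' ^ 2) →
          ∃ l ∈ kk K h, y' = l * y := by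
        intro y y' μ hy hy' hμ hμ0 heq
        by_contra hno
        push Not at hno
        exact hcon ⟨y, y', kt y hy, kt y' hy', kn y hy, kn y' hy', hno, μ, hμ, hμ0, heq⟩
      have htsurj : Function.Surjective (LL σ a b) :=
        Finite.surjective_of_injective ((injective_iff_map_eq_zero _).mpr kt')
      set D := a * σ a * σ (σ a) + b * σ b * σ (σ b) with hD
      have hD1 : D ≠ 0 := by
        intro h0
        have h3 := hσp (σ a * σ (σ a)) (b * σ (σ a)) (b * σ b) (by
          intro w
          obtain ⟨y, rfl⟩ := htsurj w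
          rw [adj σ hσ3, ← hD, h0, zero_mul])
        have ha : a = 0 := by
          have h4 := h3.1
          rcases mul_eq_zero.mp h4 with h5 | h5
          · exact (map_eq_zero σ).mp h5
          · exact (map_eq_zero σ).mp ((map_eq_zero σ).mp h5)
        have hb : b = 0 := by
          have h4 := h3.2.2
          rcases mul_eq_zero.mp h4 with h5 | h5
          · exact h5
          · exact (map_eq_zero σ).mp h5
        apply hD0
        rw [ha, hb]
        ring
      have hσD : σ D = D := by
        rw [hD]
        simp only [map_add, map_mul, hσ3]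
        ring
      -- the formula for `Ln`
      have hLn : ∀ y, (a' * σ a * σ (σ a) + b' * σ b * σ (σ b)) / D * LL σ a b y +
          (σ (σ a) * (a' * b + b' * a)) / D * σ (LL σ a b y) +
          (σ b * (a' * b + b' * a)) / D * σ (σ (LL σ a b y)) = LL σ a' b' y := by
        intro y
        have e1 := adj σ hσ3 a b y
        rw [← hD] at e1
        have e2 := congrArg σ e1
        rw [map_mul σ D y, hσD] at e2
        simp only [map_add, map_mul, hσ3] at e2
        field_simp
        rw [LL_apply σ a' b']
        linear_combination a' * e1 + b' * e2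
      have hm := hσm ((a' * σ a * σ (σ a) + b' * σ b * σ (σ b)) / D)
        ((σ (σ a) * (a' * b + b' * a)) / D) ((σ b * (a' * b + b' * a)) / D) (by
          intro w hw
          obtain ⟨y, rfl⟩ := htsurj w
          rw [hLn]
          apply kn
          rintro rfl
          exact hw (map_zero _)) (by
          intro w w' hw hw'
          obtain ⟨y, rfl⟩ := htsurj w
          obtain ⟨y', rfl⟩ := htsurj w'
          rw [hLn, hLn]
          intro heq
          have hy : y ≠ 0 := by rintro rfl; exact hw (map_zero _)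
          have hy' : y' ≠ 0 := by rintro rfl; exact hw' (map_zero _)
          obtain ⟨l, hl, rfl⟩ := Inj y y' 1 hy hy' (kk K h).one_mem one_ne_zero (by
            rw [one_mul]; exact heq.symm)
          have hl0 : l ≠ 0 := by rintro rfl; exact hy' (zero_mul _)
          rw [LL_lin σ hσk a b l hl, LL_lin σ hσk a' b' l hl] at heq
          have hn := kn y hy
          have e3 : (LL σ a' b' y * LL σ a b y ^ 2 * l) * (l - 1) = 0 := by
            linear_combination heq
          have e4 := (mul_eq_zero.mp e3).resolve_left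
            (mul_ne_zero (mul_ne_zero hn (pow_ne_zero 2 hw)) hl0)
          have e5 : l = 1 := by linear_combination e4
          rw [e5, one_mul])
      obtain ⟨m1, m2, m3⟩ := hm
      have dz : ∀ x : K, x / D = 0 → x = 0 := by
        intro x hx
        exact (div_eq_zero_iff.mp hx).resolve_right hD1
      have hσz : ∀ x : K, σ x = 0 → x = 0 := fun x hx => (map_eq_zero σ).mp hx
      -- `a = 0` or `b = 0`
      have hab : a = 0 ∨ b = 0 := by
        rcases m3 with h3 | h3
        · left
          exact hσz a (hσz _ ((mul_eq_zero.mp (dz _ h3)).resolve_right hD0))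
        · right
          exact hσz b ((mul_eq_zero.mp (dz _ h3)).resolve_right hD0)
      rcases hab with ha | hb
      · -- `a = 0`
        have hb : b ≠ 0 := by
          rintro rfl
          apply hD0
          rw [ha]
          ring
        rcases m2 with h3 | h3
        · have h4 := dz _ h3
          rw [ha] at h4
          simp only [map_zero, mul_zero, zero_add] at h4
          rcases mul_eq_zero.mp h4 with h5 | h5
          · rcases mul_eq_zero.mp h5 with h6 | h6
            · exact h1 ⟨ha, h6⟩
            · exact hb (hσz _ h6)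
          · exact hb (hσz _ (hσz _ h5))
        · exact hb (hσz b ((mul_eq_zero.mp (dz _ h3)).resolve_right hD0))
      · have ha : a ≠ 0 := by
          rintro rfl
          apply hD0
          rw [hb]
          ring
        rcases m1 with h3 | h3
        · have h4 := dz _ h3
          rw [hb] at h4
          simp only [map_zero, mul_zero, add_zero] at h4
          rcases mul_eq_zero.mp h4 with h5 | h5
          · rcases mul_eq_zero.mp h5 with h6 | h6
            · exact h2 ⟨hb, h6⟩
            · exact ha (hσz _ h6)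
          · exact ha (hσz _ (hσz _ h5))
        · exact ha (hσz a (hσz _ ((mul_eq_zero.mp (dz _ h3)).resolve_right hD0)))

end Pool.Agent.V11162.AndreCol
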