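import Pool.Agent.V11162.Hermite3

/-!
The algebraic core: conics in Andre planes of order q^3.
-/

open Finset

namespace Pool.Agent.V11162.AndreCore

open Pool.Agent.V11162.Hermite3

variable {K : Type} [Field K] [Fintype K] [CharP K 2]

/-- The subfield with `2 ^ h` elements. -/
def kk (K : Type) [Field K] [CharP K 2] (h : ℕ) : Subfield K where
  carrier := {x | x ^ 2 ^ h = x}
  mul_mem' := by
    intro x y hx hy
    simp only [Set.mem_ofPred_eq] at hx hy ⊢
    rw [mul_pow, hx, hy]
  one_mem' := by simp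
  add_mem' := by
    intro x y hx hy
    simp only [Set.mem_ofPred_eq] at hx hy ⊢
    rw [add_pow_char_pow, hx, hy]
  zero_mem' := by simp
  neg_mem' := by
    intro x hx
    simp only [Set.mem_ofPred_eq] at hx ⊢
    rw [CharTwo.neg_eq, hx]
  inv_mem' := by
    intro x hx
    simp only [Set.mem_ofPred_eq] at hx ⊢
    rw [inv_pow, hx]

omit [Fintype K] in
lemma mem_kk {h : ℕ} {x : K} : x ∈ kk K h ↔ x ^ 2 ^ h = x := Iff.rfl

section card

variable {h : ℕ} (hK : Fintype.card K = 2 ^ (3 * h))

include hK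

omit [CharP K 2] in
lemma pow_q3 (x : K) : x ^ (2 ^ h) ^ 3 = x := by
  rw [← pow_mul, mul_comm h 3, ← hK]
  exact FiniteField.pow_card x

lemma card_kk (hh : 1 ≤ h) : Nat.card (kk K h) = 2 ^ h := by
  classical
  -- units with `x ^ (q - 1) = 1`
  have hq : 2 ≤ 2 ^ h := by
    calc 2 = 2 ^ 1 := rfl
      _ ≤ 2 ^ h := Nat.pow_le_pow_right (by norm_num) hh
  obtain ⟨g, hg⟩ := IsCyclic.exists_generator (α := Kˣ)
  have hord : orderOf g = 2 ^ (3 * h) - 1 := by
    rw [orderOf_eq_card_of_forall_mem_zpowers hg, Nat.card_eq_fintype_card, Fintype.card_units, hK]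
  have hfac : 2 ^ (3 * h) - 1 = (2 ^ h - 1) * ((2 ^ h) ^ 2 + 2 ^ h + 1) := by
    have e : 2 ^ (3 * h) = (2 ^ h) ^ 3 := by rw [← pow_mul]; congr 1; ring
    rw [e]
    obtain ⟨a, ha⟩ : ∃ a, 2 ^ h = a + 1 := ⟨2 ^ h - 1, by omega⟩
    rw [ha, Nat.add_sub_cancel]
    have : (a + 1) ^ 3 = a * ((a + 1) ^ 2 + (a + 1) + 1) + 1 := by ring
    omega
  set N := (2 ^ h) ^ 2 + 2 ^ h + 1 with hN
  have hNpos : 0 < N := by positivity
  have hordz : orderOf (g ^ N) = 2 ^ h - 1 := by
    rw [orderOf_pow, hord, hfac]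
    rw [Nat.gcd_eq_right (Dvd.intro_left _ rfl)]
    exact Nat.mul_div_cancel _ hNpos
  have hz1 : (g ^ N) ^ (2 ^ h - 1) = 1 := by
    rw [← hordz]
    exact pow_orderOf_eq_one _
  -- lower bound
  have hlow : 2 ^ h ≤ Nat.card (kk K h) := by
    have hmem : ∀ u : Kˣ, u ^ (2 ^ h - 1) = 1 → (u : K) ∈ kk K h := by
      intro u hu
      rw [mem_kk]
      have h1 : (u : K) ^ (2 ^ h - 1) = 1 := by
        have := congrArg (fun v : Kˣ => (v : K)) hu
        simpa using this
      have h2 : 2 ^ h = (2 ^ h - 1) + 1 := by omega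
      rw [h2, pow_succ, h1, one_mul]
    let φ : Option (Fin (2 ^ h - 1)) → kk K h := fun o => o.elim 0
      (fun i => ⟨((g ^ N) ^ i.1 : Kˣ), hmem _ (by
        rw [← pow_mul, mul_comm, pow_mul, hz1, one_pow])⟩)
    have hφ : Function.Injective φ := by
      intro o o' hoo
      cases o with
      | none =>
        cases o' with
        | none => rfl
        | some i =>
          exfalso
          have := congrArg Subtype.val hoo
          simp only [φ, Option.elim_none, Option.elim_some] at this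
          exact Units.ne_zero ((g ^ N) ^ i.1) this.symm
      | some i =>
        cases o' with
        | none =>
          exfalso
          have := congrArg Subtype.val hoo
          simp only [φ, Option.elim_none, Option.elim_some] at this
          exact Units.ne_zero ((g ^ N) ^ i.1) this
        | some j =>
          have := congrArg Subtype.val hoo
          simp only [φ, Option.elim_some] at this
          have h2 : (g ^ N) ^ i.1 = (g ^ N) ^ j.1 := Units.ext this
          have h3 := pow_injOn_Iio_orderOf (by rw [hordz]; exact i.2 : i.1 ∈ Set.Iio _)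
            (by rw [hordz]; exact j.2) h2
          rw [Fin.ext h3]
    have h1 := Nat.card_le_card_of_injective φ hφ
    rw [Nat.card_eq_fintype_card, Fintype.card_option, Fintype.card_fin] at h1
    omega
  -- upper bound
  have hup : Nat.card (kk K h) ≤ 2 ^ h := by
    let S : Finset Kˣ := {u | u ^ (2 ^ h - 1) = 1}
    have hS : #S ≤ 2 ^ h - 1 := IsCyclic.card_pow_eq_one_le (by omega)
    let ψ : kk K h → Option S := fun x =>
      if hx : (x : K) = 0 then none else some ⟨Units.mk0 x hx, by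
        simp only [S, mem_filter, mem_univ, true_and]
        apply Units.ext
        have h1 : (x : K) ^ 2 ^ h = x := x.2
        have h2 : 2 ^ h = (2 ^ h - 1) + 1 := by omega
        rw [h2, pow_succ] at h1
        have : (x : K) ^ (2 ^ h - 1) = 1 := mul_right_cancel₀ hx (by rw [h1, one_mul])
        simpa using this⟩
    have hψ : Function.Injective ψ := by
      intro x x' hxx
      by_cases hx : (x : K) = 0
      · by_cases hx' : (x' : K) = 0
        · exact Subtype.ext (hx.trans hx'.symm)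
        · exfalso
          simp only [ψ, dif_pos hx, dif_neg hx'] at hxx
          exact absurd hxx (by simp)
      · by_cases hx' : (x' : K) = 0
        · exfalso
          simp only [ψ, dif_neg hx, dif_pos hx'] at hxx
          exact absurd hxx (by simp)
        · simp only [ψ, hx, hx', dif_neg, not_false_iff, Option.some.injEq, Subtype.mk.injEq] at hxx
          have := congrArg (fun v : Kˣ => (v : K)) hxx
          exact Subtype.ext (by simpa using this)
    have h1 := Nat.card_le_card_of_injective ψ hψ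
    rw [Nat.card_eq_fintype_card (α := Option S), Fintype.card_option, Fintype.card_coe] at h1
    omega
  exact le_antisymm hup hlow

/-- The norm is surjective onto the subfield. -/
lemma exists_norm (hh : 1 ≤ h) (δ : K) (hδ : δ ≠ 0) (hδ' : δ ∈ kk K h) :
    ∃ θ : K, θ ^ ((2 ^ h) ^ 2 + 2 ^ h + 1) = δ := by
  classical
  have hq : 2 ≤ 2 ^ h := by
    calc 2 = 2 ^ 1 := rfl
      _ ≤ 2 ^ h := Nat.pow_le_pow_right (by norm_num) hh
  obtain ⟨g, hg⟩ := IsCyclic.exists_generator (α := Kˣ)
  have hord : orderOf g = 2 ^ (3 * h) - 1 := by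
    rw [orderOf_eq_card_of_forall_mem_zpowers hg, Nat.card_eq_fintype_card, Fintype.card_units, hK]
  have hfac : 2 ^ (3 * h) - 1 = (2 ^ h - 1) * ((2 ^ h) ^ 2 + 2 ^ h + 1) := by
    have e : 2 ^ (3 * h) = (2 ^ h) ^ 3 := by rw [← pow_mul]; congr 1; ring
    rw [e]
    obtain ⟨a, ha⟩ : ∃ a, 2 ^ h = a + 1 := ⟨2 ^ h - 1, by omega⟩
    rw [ha, Nat.add_sub_cancel]
    have : (a + 1) ^ 3 = a * ((a + 1) ^ 2 + (a + 1) + 1) + 1 := by ring
    omega
  obtain ⟨s, hs⟩ := (mem_powers_iff_mem_zpowers.mpr (hg (Units.mk0 δ hδ)))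
  simp only at hs
  have h1 : g ^ (s * (2 ^ h - 1)) = 1 := by
    rw [pow_mul, hs]
    apply Units.ext
    have h2 : δ ^ 2 ^ h = δ := hδ'
    have h3 : 2 ^ h = (2 ^ h - 1) + 1 := by omega
    rw [h3, pow_succ] at h2
    have : δ ^ (2 ^ h - 1) = 1 := mul_right_cancel₀ hδ (by rw [h2, one_mul])
    simpa using this
  have h2 := orderOf_dvd_of_pow_eq_one h1
  rw [hord, hfac, mul_comm s] at h2
  have h3 : (2 ^ h) ^ 2 + 2 ^ h + 1 ∣ s :=
    Nat.dvd_of_mul_dvd_mul_left (by omega : 0 < 2 ^ h - 1) h2
  obtain ⟨r, hr⟩ := h3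
  refine ⟨((g ^ r : Kˣ) : K), ?_⟩
  have h4 : g ^ r ^ 1 = g ^ r := by simp
  have h5 : (g ^ r) ^ ((2 ^ h) ^ 2 + 2 ^ h + 1) = Units.mk0 δ hδ := by
    rw [← pow_mul, mul_comm, ← hr]
    exact hs
  have := congrArg (fun v : Kˣ => (v : K)) h5
  simpa using this

end card

omit [Fintype K] in
/-- An element satisfying a quadratic equation over the subfield is in the subfield. -/
lemma quad {h : ℕ} (hq3 : ∀ x : K, x ^ (2 ^ h) ^ 3 = x) {t A B C : K} (hA : A ∈ kk K h)
    (hB : B ∈ kk K h) (hC : C ∈ kk K h) (hA0 : A ≠ 0) (ht : A * t ^ 2 + B * t + C = 0) :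
    t ∈ kk K h := by
  rw [mem_kk] at *
  set q := 2 ^ h with hq
  have fr : ∀ x y : K, (x + y) ^ q = x ^ q + y ^ q := fun x y => add_pow_char_pow x y 2 h
  have h1 : A * (t ^ q) ^ 2 + B * t ^ q + C = 0 := by
    have := congrArg (fun z => z ^ q) ht
    rw [fr, fr, mul_pow, mul_pow, hA, hB, hC, zero_pow (by positivity)] at this
    rw [← this]
    ring
  have h2 : A * ((t ^ q) ^ q) ^ 2 + B * (t ^ q) ^ q + C = 0 := by
    have := congrArg (fun z => z ^ q) h1
    rw [fr, fr, mul_pow, mul_pow, hA, hB, hC, zero_pow (by positivity)] at this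
    rw [← this]
    ring
  have h3 : ((t ^ q) ^ q) ^ q = t := by
    have e : ((t ^ q) ^ q) ^ q = t ^ q ^ 3 := by
      rw [← pow_mul, ← pow_mul]
      congr 1
      ring
    rw [e]
    exact hq3 t
  set t1 := t ^ q
  set t2 := t1 ^ q
  by_cases h01 : t1 = t
  · exact h01
  exfalso
  have h12 : t2 ≠ t1 := by
    intro h
    apply h01
    have h4 : t2 ^ q = t1 ^ q := by rw [h]
    rw [h3] at h4
    -- `t = t2 = t1`
    exact (h4.trans h).symm
  have h02 : t2 ≠ t := by
    intro h
    apply h12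
    have h4 : t2 ^ q = t ^ q := by rw [h]
    rw [h3] at h4
    exact h.trans h4
  have e1 : (t1 - t) * (A * (t1 + t) + B) = 0 := by linear_combination h1 - ht
  have e2 : (t2 - t) * (A * (t2 + t) + B) = 0 := by linear_combination h2 - ht
  have e3 := (mul_eq_zero.mp e1).resolve_left (sub_ne_zero.mpr h01)
  have e4 := (mul_eq_zero.mp e2).resolve_left (sub_ne_zero.mpr h02)
  have e5 : A * (t2 - t1) = 0 := by linear_combination e4 - e3
  rcases mul_eq_zero.mp e5 with h | h
  · exact hA0 h
  · exact h12 (sub_eq_zero.mp h)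

/-- There is an element outside the span of two elements. -/
lemma exists_not_span {h : ℕ} (hK : Fintype.card K = 2 ^ (3 * h)) (hh : 1 ≤ h) (x y : K) :
    ∃ w : K, ∀ a ∈ kk K h, ∀ b ∈ kk K h, w ≠ a * x + b * y := by
  by_contra hcon
  push Not at hcon
  choose f hf g hg hfg using hcon
  have hinj : Function.Injective (fun w => ((⟨f w, hf w⟩, ⟨g w, hg w⟩) : kk K h × kk K h)) := by
    intro w w' hww
    have h1 : f w = f w' := congrArg (fun p => (p.1 : K)) hww
    have h2 : g w = g w' := congrArg (fun p => (p.2 : K)) hww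
    rw [hfg w, hfg w', h1, h2]
  have h1 := Nat.card_le_card_of_injective _ hinj
  rw [Nat.card_prod, card_kk hK hh, Nat.card_eq_fintype_card, hK, ← pow_add] at h1
  exact absurd h1 (not_le.mpr (Nat.pow_lt_pow_right (by norm_num) (by omega)))

/-- Pigeonhole for four coefficients. -/
lemma exists_rel {h : ℕ} (hK : Fintype.card K = 2 ^ (3 * h)) (hh : 1 ≤ h) (x y z w : K) :
    ∃ a ∈ kk K h, ∃ b ∈ kk K h, ∃ c ∈ kk K h, ∃ d ∈ kk K h,
      ¬ (a = 0 ∧ b = 0 ∧ c = 0 ∧ d = 0) ∧ a * x + b * y = c * z + d * w := by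
  let Ψ : kk K h × kk K h × kk K h × kk K h → K := fun p =>
    (p.1 : K) * x + (p.2.1 : K) * y - ((p.2.2.1 : K) * z + (p.2.2.2 : K) * w)
  have hnot : ¬ Function.Injective Ψ := by
    intro hinj
    have h1 := Nat.card_le_card_of_injective _ hinj
    rw [Nat.card_prod, Nat.card_prod, Nat.card_prod, card_kk hK hh, Nat.card_eq_fintype_card, hK,
      ← pow_add, ← pow_add, ← pow_add] at h1
    exact absurd h1 (not_le.mpr (Nat.pow_lt_pow_right (by norm_num) (by omega)))
  unfold Function.Injective at hnot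
  push Not at hnot
  obtain ⟨p, p', hp, hne⟩ := hnot
  refine ⟨p.1 - p'.1, (kk K h).sub_mem p.1.2 p'.1.2, p.2.1 - p'.2.1,
    (kk K h).sub_mem p.2.1.2 p'.2.1.2, p.2.2.1 - p'.2.2.1,
    (kk K h).sub_mem p.2.2.1.2 p'.2.2.1.2, p.2.2.2 - p'.2.2.2,
    (kk K h).sub_mem p.2.2.2.2 p'.2.2.2.2, ?_, ?_⟩
  · rintro ⟨h1, h2, h3, h4⟩
    apply hne
    refine Prod.ext (Subtype.ext (sub_eq_zero.mp h1)) (Prod.ext (Subtype.ext (sub_eq_zero.mp h2))
      (Prod.ext (Subtype.ext (sub_eq_zero.mp h3)) (Subtype.ext (sub_eq_zero.mp h4))))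
  · simp only [Ψ] at hp
    linear_combination hp

lemma tournament (R : Fin 4 → Fin 4 → Prop) (h1 : ∀ i j, i ≠ j → R i j ∨ R j i)
    (h2 : ∀ i j l, i ≠ j → i ≠ l → j ≠ l → R i j → R i l → False) : False := by
  rcases h1 0 1 (by decide) with a | a
  · rcases h1 0 2 (by decide) with b | b
    · exact h2 0 1 2 (by decide) (by decide) (by decide) a b
    rcases h1 0 3 (by decide) with c | c
    · exact h2 0 1 3 (by decide) (by decide) (by decide) a c
    rcases h1 2 3 (by decide) with d | d
    · exact h2 2 0 3 (by decide) (by decide) (by decide) b d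
    · exact h2 3 0 2 (by decide) (by decide) (by decide) c d
  · rcases h1 1 2 (by decide) with b | b
    · exact h2 1 0 2 (by decide) (by decide) (by decide) a b
    rcases h1 1 3 (by decide) with c | c
    · exact h2 1 0 3 (by decide) (by decide) (by decide) a c
    rcases h1 2 3 (by decide) with d | d
    · exact h2 2 1 3 (by decide) (by decide) (by decide) b d
    · exact h2 3 1 2 (by decide) (by decide) (by decide) c d

/-- Exactly one kernel: there is a collision. -/
lemma caseII {h : ℕ} (hK : Fintype.card K = 2 ^ (3 * h)) (hh : 2 ≤ h) (A P : K →+ K)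
    (hA : ∀ l ∈ kk K h, ∀ y, A (l * y) = l * A y) (hA0 : ∀ y, A y = 0 → y = 0) (χ : K → K)
    (hχk : ∀ l ∈ kk K h, χ l ∈ kk K h) (hχs : ∀ l ∈ kk K h, ∃ l' ∈ kk K h, χ l' = l)
    (hχ0 : ∀ l ∈ kk K h, χ l = 0 → l = 0) (hχi : ∀ l ∈ kk K h, χ l = 1 → l = 1)
    (hP : ∀ l ∈ kk K h, ∀ y, P (l * y) = χ l * P y) (y0 : K) (hy0 : y0 ≠ 0)
    (hker : ∀ y, P y = 0 ↔ ∃ l ∈ kk K h, y = l * y0) :
    ∃ y y', P y ≠ 0 ∧ P y' ≠ 0 ∧ (∀ l ∈ kk K h, y' ≠ l * y) ∧
      ∃ μ ∈ kk K h, μ ≠ 0 ∧ A y' * P y = μ * (A y * P y') := by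
  classical
  by_contra hcon
  have Inj : ∀ y y' μ, P y ≠ 0 → P y' ≠ 0 → μ ∈ kk K h → μ ≠ 0 → A y' * P y = μ * (A y * P y') →
      ∃ l ∈ kk K h, y' = l * y := by
    intro y y' μ hy hy' hμ hμ0 heq
    by_contra hno
    push Not at hno
    exact hcon ⟨y, y', hy, hy', hno, μ, hμ, hμ0, heq⟩
  have h1 : 1 ≤ h := by omega
  set k := kk K h with hk
  obtain ⟨w1, hw1⟩ := exists_not_span hK h1 y0 0
  obtain ⟨w2, hw2⟩ := exists_not_span hK h1 y0 w1
  -- an element of the subfield different from 0 and 1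
  obtain ⟨l0, hl0k, hl00, hl01⟩ : ∃ l ∈ k, l ≠ 0 ∧ l ≠ 1 := by
    by_contra hno
    push Not at hno
    have hinj : Function.Injective (fun x : k => if (x : K) = 0 then (0 : Fin 2) else 1) := by
      intro x x' hxx
      simp only at hxx
      by_cases hx : (x : K) = 0
      · by_cases hx' : (x' : K) = 0
        · exact Subtype.ext (hx.trans hx'.symm)
        · rw [if_pos hx, if_neg hx'] at hxx
          exact absurd hxx (by decide)
      · by_cases hx' : (x' : K) = 0
        · rw [if_neg hx, if_pos hx'] at hxx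
          exact absurd hxx (by decide)
        · exact Subtype.ext ((hno x x.2 hx).trans (hno x' x'.2 hx').symm)
    have h2 := Nat.card_le_card_of_injective _ hinj
    rw [card_kk hK h1, Nat.card_eq_fintype_card, Fintype.card_fin] at h2
    have h3 : 2 ^ 2 ≤ 2 ^ h := Nat.pow_le_pow_right (by norm_num) hh
    omega
  -- independence
  have ind : ∀ a ∈ k, ∀ b ∈ k, ∀ c ∈ k, a * w1 + b * w2 + c * y0 = 0 → a = 0 ∧ b = 0 ∧ c = 0 := by
    intro a ha b hb c hc h0
    have hb0 : b = 0 := by
      by_contra hb0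
      apply hw2 (-c / b) (k.div_mem (k.neg_mem hc) hb) (-a / b) (k.div_mem (k.neg_mem ha) hb)
      field_simp
      linear_combination h0
    rw [hb0, zero_mul, add_zero] at h0
    have ha0 : a = 0 := by
      by_contra ha0
      apply hw1 (-c / a) (k.div_mem (k.neg_mem hc) ha) 0 k.zero_mem
      field_simp
      linear_combination h0
    rw [ha0, zero_mul, zero_add] at h0
    exact ⟨ha0, hb0, (mul_eq_zero.mp h0).resolve_right hy0⟩
  have hP1 : P w1 ≠ 0 := by
    intro h0
    obtain ⟨l, hl, h2⟩ := (hker w1).mp h0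
    exact hw1 l hl 0 k.zero_mem (by rw [h2]; ring)
  have hχ1 : χ 1 = 1 := by
    have := hP 1 k.one_mem w1
    rw [one_mul] at this
    exact (mul_right_cancel₀ hP1 (by rw [one_mul]; exact this)).symm
  have hχz : χ 0 = 0 := by
    have := hP 0 k.zero_mem w1
    rw [zero_mul, map_zero] at this
    exact (mul_eq_zero.mp this.symm).resolve_right hP1
  have indP : ∀ x ∈ k, ∀ y ∈ k, x * P w1 + y * P w2 = 0 → x = 0 ∧ y = 0 := by
    intro x hx y hy h0
    obtain ⟨x', hx', rfl⟩ := hχs x hx
    obtain ⟨y', hy', rfl⟩ := hχs y hy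
    rw [← hP x' hx', ← hP y' hy', ← map_add, hker] at h0
    obtain ⟨l, hl, h2⟩ := h0
    have h3 := ind x' hx' y' hy' (-l) (k.neg_mem hl) (by linear_combination h2)
    rw [h3.1, h3.2.1, hχz]
    exact ⟨rfl, rfl⟩
  -- the four vectors
  let α : Fin 4 → K := ![1, 0, 1, 1]
  let β : Fin 4 → K := ![0, 1, 1, χ l0]
  let α' : Fin 4 → K := ![1, 0, 1, 1]
  let β' : Fin 4 → K := ![0, 1, 1, l0]
  have hκ0 : χ l0 ≠ 0 := fun h => hl00 (hχ0 l0 hl0k h)
  have hκ1 : χ l0 ≠ 1 := fun h => hl01 (hχi l0 hl0k h)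
  have hκk := hχk l0 hl0k
  have two : (2 : K) = 0 := CharTwo.two_eq_zero
  have hαk : ∀ i, α i ∈ k := by
    intro i; fin_cases i <;> simp [α, k.one_mem, k.zero_mem]
  have hβk : ∀ i, β i ∈ k := by
    intro i
    fin_cases i
    · exact k.zero_mem
    · exact k.one_mem
    · exact k.one_mem
    · exact hκk
  have hα'k : ∀ i, α' i ∈ k := by
    intro i; fin_cases i <;> simp [α', k.one_mem, k.zero_mem]
  have hβ'k : ∀ i, β' i ∈ k := by
    intro i
    fin_cases i
    · exact k.zero_mem
    · exact k.one_mem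
    · exact k.one_mem
    · exact hl0k
  have hδ : ∀ i j, i ≠ j → α i * β j - α j * β i ≠ 0 := by
    have hm1 : χ l0 - 1 ≠ 0 := sub_ne_zero.mpr hκ1
    have hm2 : 1 - χ l0 ≠ 0 := sub_ne_zero.mpr hκ1.symm
    intro i j hij
    fin_cases i <;> fin_cases j <;> simp [α, β] at hij ⊢ <;> first
      | exact hκ0
      | exact hm1
      | exact hm2
  have hδ' : ∀ i j, i ≠ j → α' i * β' j - α' j * β' i ≠ 0 := by
    have hm1 : l0 - 1 ≠ 0 := sub_ne_zero.mpr hl01
    have hm2 : 1 - l0 ≠ 0 := sub_ne_zero.mpr hl01.symm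
    intro i j hij
    fin_cases i <;> fin_cases j <;> simp [α', β'] at hij ⊢ <;> first
      | exact hl00
      | exact hm1
      | exact hm2
  let u : Fin 4 → K := fun i => α' i * w1 + β' i * w2
  have hu : ∀ i, P (u i) = α i * P w1 + β i * P w2 := by
    intro i
    simp only [u]
    rw [map_add, hP _ (hα'k i), hP _ (hβ'k i)]
    fin_cases i <;> simp [α, β, α', β', hχ1, hχz]
  set p : Fin 4 → K := fun i => P (u i) with hp
  have hpne : ∀ i j, i ≠ j → ∀ x ∈ k, ∀ y ∈ k, x * p i = y * p j → x = 0 ∧ y = 0 := by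
    intro i j hij x hx y hy h0
    simp only [hp, hu] at h0
    have h2 := indP (x * α i - y * α j) (k.sub_mem (k.mul_mem hx (hαk i)) (k.mul_mem hy (hαk j)))
      (x * β i - y * β j) (k.sub_mem (k.mul_mem hx (hβk i)) (k.mul_mem hy (hβk j)))
      (by linear_combination h0)
    constructor
    · have : x * (α i * β j - α j * β i) = 0 := by
        linear_combination (β j) * h2.1 - (α j) * h2.2
      exact (mul_eq_zero.mp this).resolve_right (hδ i j hij)
    · have : y * (α i * β j - α j * β i) = 0 := by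
        linear_combination (β i) * h2.1 - (α i) * h2.2
      exact (mul_eq_zero.mp this).resolve_right (hδ i j hij)
  have hp0 : ∀ i, p i ≠ 0 := by
    intro i h0
    obtain ⟨j, hj⟩ : ∃ j, i ≠ j := by
      fin_cases i
      · exact ⟨1, by decide⟩
      · exact ⟨0, by decide⟩
      · exact ⟨0, by decide⟩
      · exact ⟨0, by decide⟩
    have := hpne i j hj 1 k.one_mem 0 k.zero_mem (by rw [h0]; ring)
    exact one_ne_zero this.1
  have hAy0 : A y0 ≠ 0 := fun h => hy0 (hA0 _ h)
  -- independence of `u i` and `y0`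
  have indu : ∀ i, ∀ c ∈ k, ∀ d ∈ k, c * u i + d * y0 = 0 → c = 0 := by
    intro i c hc d hd h0
    have h2 := ind (c * α' i) (k.mul_mem hc (hα'k i)) (c * β' i) (k.mul_mem hc (hβ'k i)) d hd
      (by simp only [u] at h0; linear_combination h0)
    obtain ⟨j, hj⟩ : ∃ j, i ≠ j := by
      fin_cases i
      · exact ⟨1, by decide⟩
      · exact ⟨0, by decide⟩
      · exact ⟨0, by decide⟩
      · exact ⟨0, by decide⟩
    have : c * (α' i * β' j - α' j * β' i) = 0 := by
      linear_combination (β' j) * h2.1 - (α' j) * h2.2.1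
    exact (mul_eq_zero.mp this).resolve_right (hδ' i j hj)
  have hAlin : ∀ i, ∀ c ∈ k, ∀ d ∈ k, A (c * u i + d * y0) = c * A (u i) + d * A y0 := by
    intro i c hc d hd
    rw [map_add, hA c hc, hA d hd]
  have hPlin : ∀ i, ∀ c ∈ k, ∀ d ∈ k, P (c * u i + d * y0) = χ c * p i := by
    intro i c hc d hd
    have : P (d * y0) = 0 := (hker _).mpr ⟨d, hd, rfl⟩
    rw [map_add, hP c hc, this, add_zero]
  apply tournament (fun i j => ∃ a ∈ k, ∃ b ∈ k, a ≠ 0 ∧
    p i * A y0 = p j * (a * A (u i) + b * A y0))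
  · intro i j hij
    obtain ⟨a, ha, b, hb, c, hc, d, hd, hne, hrel⟩ := exists_rel hK h1 (p j * A (u i))
      (p j * A y0) (p i * A (u j)) (p i * A y0)
    by_cases ha0 : a = 0
    · have hc0 : c ≠ 0 := by
        intro hc0
        rw [ha0, hc0, zero_mul, zero_mul, zero_add, zero_add] at hrel
        have h2 : b * p j = d * p i := by
          apply mul_right_cancel₀ hAy0
          linear_combination hrel
        have h3 := hpne j i hij.symm b hb d hd h2
        exact hne ⟨ha0, h3.1, hc0, h3.2⟩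
      have hb0 : b ≠ 0 := by
        intro hb0
        rw [ha0, hb0, zero_mul, zero_mul, add_zero] at hrel
        have h2 : p i * A (c * u j + d * y0) = 0 := by
          rw [hAlin j c hc d hd]
          linear_combination -hrel
        have h3 := hA0 _ ((mul_eq_zero.mp h2).resolve_left (hp0 i))
        exact hc0 (indu j c hc d hd h3)
      right
      refine ⟨c / b, k.div_mem hc hb, d / b, k.div_mem hd hb, div_ne_zero hc0 hb0, ?_⟩
      rw [ha0, zero_mul, zero_add] at hrel
      field_simp
      linear_combination hrel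
    · by_cases hc0 : c = 0
      · have hd0 : d ≠ 0 := by
          intro hd0
          rw [hc0, hd0, zero_mul, zero_mul, add_zero] at hrel
          have h2 : p j * A (a * u i + b * y0) = 0 := by
            rw [hAlin i a ha b hb]
            linear_combination hrel
          have h3 := hA0 _ ((mul_eq_zero.mp h2).resolve_left (hp0 j))
          exact ha0 (indu i a ha b hb h3)
        left
        refine ⟨a / d, k.div_mem ha hd, b / d, k.div_mem hb hd, div_ne_zero ha0 hd0, ?_⟩
        rw [hc0, zero_mul, zero_add] at hrel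
        field_simp
        linear_combination -hrel
      · exfalso
        have hχa : χ a ≠ 0 := fun h => ha0 (hχ0 a ha h)
        have hχc : χ c ≠ 0 := fun h => hc0 (hχ0 c hc h)
        obtain ⟨l, hl, hll⟩ := Inj (a * u i + b * y0) (c * u j + d * y0) (χ a / χ c)
          (by rw [hPlin i a ha b hb]; exact mul_ne_zero hχa (hp0 i))
          (by rw [hPlin j c hc d hd]; exact mul_ne_zero hχc (hp0 j))
          (k.div_mem (hχk a ha) (hχk c hc)) (div_ne_zero hχa hχc) (by
            rw [hPlin i a ha b hb, hPlin j c hc d hd, hAlin i a ha b hb, hAlin j c hc d hd]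
            field_simp
            linear_combination -hrel)
        have h2 := ind (c * α' j - l * (a * α' i))
          (k.sub_mem (k.mul_mem hc (hα'k j)) (k.mul_mem hl (k.mul_mem ha (hα'k i))))
          (c * β' j - l * (a * β' i))
          (k.sub_mem (k.mul_mem hc (hβ'k j)) (k.mul_mem hl (k.mul_mem ha (hβ'k i))))
          (d - l * b) (k.sub_mem hd (k.mul_mem hl hb))
          (by simp only [u] at hll; linear_combination hll)
        have : c * (α' i * β' j - α' j * β' i) = 0 := by
          linear_combination (α' i) * h2.2.1 - (β' i) * h2.1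
        exact hc0 ((mul_eq_zero.mp this).resolve_right (hδ' i j hij))
  · rintro i j l hij hil hjl ⟨a, ha, b, hb, ha0, h3⟩ ⟨c, hc, d, hd, hc0, h4⟩
    -- eliminate `A (u i)`
    have h5 : c * p l * p i - b * c * p l * p j - a * p j * p i + a * d * p j * p l = 0 := by
      apply mul_right_cancel₀ hAy0
      rw [zero_mul]
      linear_combination (c * p l) * h3 - (a * p j) * h4
    have h6 : p l * (α i * β j - α j * β i) = (α l * β j - α j * β l) * p i +
        (α i * β l - α l * β i) * p j := by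
      simp only [hp, hu]
      ring
    have hδij := hδ i j hij
    have hδlj := hδ l j hjl.symm
    have hδil := hδ i l hil
    have mk : ∀ i j, α i * β j - α j * β i ∈ k := fun i j =>
      k.sub_mem (k.mul_mem (hαk i) (hβk j)) (k.mul_mem (hαk j) (hβk i))
    have mij := mk i j
    have mlj := mk l j
    have mil := mk i l
    set δij := α i * β j - α j * β i
    set δlj := α l * β j - α j * β l
    set δil := α i * β l - α l * β i
    have hpj := hp0 j
    have h7 : (c * δlj) * (p i / p j) ^ 2 + (c * δil + (a * d - b * c) * δlj - a * δij) *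
        (p i / p j) + (a * d - b * c) * δil = 0 := by
      have h8 : (c * δlj) * (p i) ^ 2 + (c * δil + (a * d - b * c) * δlj - a * δij) *
          (p i * p j) + (a * d - b * c) * δil * (p j) ^ 2 = 0 := by
        linear_combination δij * h5 - (c * p i + (a * d - b * c) * p j) * h6
      field_simp
      linear_combination h8
    have h9 := quad (pow_q3 hK) (k.mul_mem hc mlj)
      (k.sub_mem (k.add_mem (k.mul_mem hc mil) (k.mul_mem (k.sub_mem (k.mul_mem ha hd)
        (k.mul_mem hb hc)) mlj)) (k.mul_mem ha mij))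
      (k.mul_mem (k.sub_mem (k.mul_mem ha hd) (k.mul_mem hb hc)) mil)
      (mul_ne_zero hc0 hδlj) h7
    have h10 := hpne i j hij 1 k.one_mem (p i / p j) h9 (by field_simp)
    exact one_ne_zero h10.1

end Pool.Agent.V11162.AndreCore
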