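import Pool.Agent.V11162.AndreCol

/-!
The collision theorem with explicit powers.
-/

open Finset

namespace Pool.Agent.V11162.AndreCol

open Pool.Agent.V11162.Hermite3 Pool.Agent.V11162.AndreCore

variable {K : Type} [Field K] [Fintype K] [CharP K 2]

omit [Fintype K] [CharP K 2] in
lemma L_three (q : ℕ) (c : ZMod 3 → K) (w : K) :
    L q c w = c 0 * w + c 1 * w ^ q + c 2 * w ^ q ^ 2 := by
  have h0 : (0 : ZMod 3).val = 0 := rfl
  have h1 : (1 : ZMod 3).val = 1 := rfl
  have h2 : (2 : ZMod 3).val = 2 := rfl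
  rw [L]
  change ∑ j : Fin 3, c j * w ^ q ^ (ZMod.val (n := 3) j) = _
  rw [Fin.sum_univ_three]
  change c 0 * w ^ q ^ (0 : ZMod 3).val + c 1 * w ^ q ^ (1 : ZMod 3).val +
    c 2 * w ^ q ^ (2 : ZMod 3).val = _
  rw [h0, h1, h2, pow_zero, pow_one, pow_one]

/-- A coefficient vector. -/
def cc (c0 c1 c2 : K) : ZMod 3 → K := fun j => if j = 0 then c0 else if j = 1 then c1 else c2

omit [Fintype K] [CharP K 2] in
lemma L_cc (q : ℕ) (c0 c1 c2 w : K) :
    L q (cc c0 c1 c2) w = c0 * w + c1 * w ^ q + c2 * w ^ q ^ 2 := by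
  rw [L_three]
  rfl

omit [CharP K 2] in
lemma poly_zero {h : ℕ} (hK : Fintype.card K = 2 ^ (3 * h)) (hh : 2 ≤ h) (c0 c1 c2 : K)
    (h0 : ∀ w : K, c0 * w + c1 * w ^ 2 ^ h + c2 * w ^ (2 ^ h) ^ 2 = 0) :
    c0 = 0 ∧ c1 = 0 ∧ c2 = 0 := by
  open Polynomial in
  let p : K[X] := C c0 * X ^ 1 + C c1 * X ^ 2 ^ h + C c2 * X ^ (2 ^ h) ^ 2
  have hq : 2 ^ 2 ≤ 2 ^ h := Nat.pow_le_pow_right (by norm_num) hh
  set q := 2 ^ h with hqd
  have h1q : 1 < q := by omega
  have hqq : q < q ^ 2 := by nlinarith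
  have hqqq : q ^ 2 < q ^ 3 := Nat.pow_lt_pow_right h1q (by norm_num)
  have hcard : Fintype.card K = q ^ 3 := by rw [hK, hqd, ← pow_mul]; congr 1; ring
  have hdeg : p.natDegree ≤ q ^ 2 := by
    refine (Polynomial.natDegree_add_le_of_degree_le
      (Polynomial.natDegree_add_le_of_degree_le ?_ ?_) ?_)
    · exact (Polynomial.natDegree_C_mul_X_pow_le c0 1).trans (by omega)
    · exact (Polynomial.natDegree_C_mul_X_pow_le c1 q).trans (by omega)
    · exact (Polynomial.natDegree_C_mul_X_pow_le c2 (q ^ 2))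
  have hp : p = 0 := by
    apply Polynomial.eq_zero_of_natDegree_lt_card_of_eval_eq_zero p (f := (id : K → K))
      Function.injective_id
    · intro w
      simp only [p, Polynomial.eval_add, Polynomial.eval_mul, Polynomial.eval_C,
        Polynomial.eval_pow, Polynomial.eval_X, id_eq, pow_one]
      exact h0 w
    · rw [hcard]
      omega
  have hc : ∀ n, p.coeff n = 0 := by intro n; rw [hp, Polynomial.coeff_zero]
  have e : ∀ n, p.coeff n = (if n = 1 then c0 else 0) + (if n = q then c1 else 0) +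
      (if n = q ^ 2 then c2 else 0) := by
    intro n
    simp only [p, Polynomial.coeff_add, Polynomial.coeff_C_mul_X_pow]
    rfl
  refine ⟨?_, ?_, ?_⟩
  · have := hc 1
    rw [e, if_pos rfl, if_neg (by omega), if_neg (by omega)] at this
    simpa using this
  · have := hc q
    rw [e, if_neg (by omega), if_pos rfl, if_neg (by omega)] at this
    simpa using this
  · have := hc (q ^ 2)
    rw [e, if_neg (by omega), if_neg (by omega), if_pos rfl] at this
    simpa using this

/-- The collision theorem. -/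
theorem coll {h : ℕ} (hK : Fintype.card K = 2 ^ (3 * h)) (hh : 2 ≤ h) (m : ℕ)
    (hm : m = 1 ∨ m = 2) (a b a' b' : K) (hD0 : a' * b + b' * a ≠ 0) (h1 : ¬ (a = 0 ∧ b' = 0))
    (h2 : ¬ (b = 0 ∧ a' = 0)) :
    ∃ y y' : K, a * y + b * y ^ (2 ^ h) ^ m ≠ 0 ∧ a * y' + b * y' ^ (2 ^ h) ^ m ≠ 0 ∧
      a' * y + b' * y ^ (2 ^ h) ^ m ≠ 0 ∧ a' * y' + b' * y' ^ (2 ^ h) ^ m ≠ 0 ∧
      (∀ l : K, l ^ 2 ^ h = l → y' ≠ l * y) ∧ ∃ μ : K, μ ^ 2 ^ h = μ ∧ μ ≠ 0 ∧
        (a' * y' + b' * y' ^ (2 ^ h) ^ m) * (a * y + b * y ^ (2 ^ h) ^ m) ^ 2 =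
          μ * ((a' * y + b' * y ^ (2 ^ h) ^ m) * (a * y' + b * y' ^ (2 ^ h) ^ m) ^ 2) := by
  have hσ : ∀ (r : ℕ) (x : K), iterateFrobenius K 2 (h * r) x = x ^ (2 ^ h) ^ r := by
    intro r x
    rw [iterateFrobenius_def, pow_mul]
  have hq3 := pow_q3 hK
  rcases hm with rfl | rfl
  · have := core hK hh (iterateFrobenius K 2 (h * 1)) (by
      intro x
      rw [hσ, hσ, hσ, ← pow_mul, ← pow_mul]
      have e : (2 ^ h) ^ 1 * ((2 ^ h) ^ 1 * (2 ^ h) ^ 1) = (2 ^ h) ^ 3 := by ring
      rw [e]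
      exact hq3 x) (by
      intro x
      rw [hσ, pow_one]
      rfl) (by
      intro c0 c1 c2 h0
      apply poly_zero hK hh
      intro w
      have := h0 w
      rw [hσ, hσ, pow_one, ← pow_mul, ← pow_two] at this
      exact this) (by
      intro c0 c1 c2 hz hi
      have e : ∀ w : K, L (2 ^ h) (cc c0 c1 c2) w = c0 * w +
          c1 * (iterateFrobenius K 2 (h * 1)) w +
          c2 * (iterateFrobenius K 2 (h * 1)) ((iterateFrobenius K 2 (h * 1)) w) := by
        intro w
        have e3 : (w ^ 2 ^ h) ^ 2 ^ h = w ^ (2 ^ h) ^ 2 := by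
          rw [← pow_mul]
          congr 1
          ring
        rw [L_cc, hσ, hσ, pow_one, e3]
      have mono := monomial h hh hK (cc c0 c1 c2) (by
        intro w hw
        rw [e]
        exact hz w hw) (by
        intro w w' hw hw' h0
        rw [e, e] at h0
        exact hi w w' hw hw' h0)
      exact ⟨mono 0 1 (by decide), mono 0 2 (by decide), mono 1 2 (by decide)⟩)
      a b a' b' hD0 h1 h2
    simp only [LL_apply, hσ, mem_kk] at this
    exact this
  · have hpq : ∀ x : K, (x ^ (2 ^ h) ^ 2) ^ (2 ^ h) ^ 2 = x ^ 2 ^ h := by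
      intro x
      rw [← pow_mul]
      have e : (2 ^ h) ^ 2 * (2 ^ h) ^ 2 = (2 ^ h) ^ 3 * 2 ^ h := by ring
      rw [e, pow_mul, hq3]
    have := core hK hh (iterateFrobenius K 2 (h * 2)) (by
      intro x
      rw [hσ, hσ, hσ, hpq, ← pow_mul]
      have e : (2 ^ h) ^ 2 * 2 ^ h = (2 ^ h) ^ 3 := by ring
      rw [e]
      exact hq3 x) (by
      intro x
      rw [hσ, mem_kk]
      constructor
      · intro hx
        rw [pow_two, pow_mul, hx, hx]
      · intro hx
        have e1 : (x ^ (2 ^ h) ^ 2) ^ 2 ^ h = x := by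
          rw [← pow_mul]
          have e : (2 ^ h) ^ 2 * 2 ^ h = (2 ^ h) ^ 3 := by ring
          rw [e]
          exact hq3 x
        rwa [hx] at e1) (by
      intro c0 c1 c2 h0
      have := poly_zero hK hh c0 c2 c1 (by
        intro w
        have := h0 w
        rw [hσ, hσ, hpq] at this
        rw [← this]
        ring)
      exact ⟨this.1, this.2.2, this.2.1⟩) (by
      intro c0 c1 c2 hz hi
      have e : ∀ w : K, L (2 ^ h) (cc c0 c2 c1) w = c0 * w +
          c1 * (iterateFrobenius K 2 (h * 2)) w +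
          c2 * (iterateFrobenius K 2 (h * 2)) ((iterateFrobenius K 2 (h * 2)) w) := by
        intro w
        rw [L_cc, hσ, hσ, hpq]
        ring
      have mono := monomial h hh hK (cc c0 c2 c1) (by
        intro w hw
        rw [e]
        exact hz w hw) (by
        intro w w' hw hw' h0
        rw [e, e] at h0
        exact hi w w' hw hw' h0)
      exact ⟨mono 0 2 (by decide), mono 0 1 (by decide), (mono 1 2 (by decide)).symm⟩)
      a b a' b' hD0 h1 h2
    simp only [LL_apply, hσ, mem_kk] at this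
    exact this

end Pool.Agent.V11162.AndreCol
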