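import Mathlib

/-!
Power sums for linearised polynomials over the field with q^3 elements, q a power of 2.
-/

open Finset

namespace Pool.Agent.V11162.Hermite3

/-- The number with digits `2 ^ r`, `r < h`, placed in the blocks `J r`. -/
def S (h : ℕ) (J : Fin h → ZMod 3) : ℕ := ∑ r : Fin h, 2 ^ (r.1 + h * (J r).val)

lemma val_lt (x : ZMod 3) : x.val < 3 := ZMod.val_lt x

lemma S_inj (h : ℕ) : Function.Injective (S h) := by
  intro J J' hJ
  have key : ∀ J : Fin h → ZMod 3, S h J =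
      ∑ t ∈ univ.image (fun r : Fin h => r.1 + h * (J r).val), 2 ^ t := by
    intro J
    rw [sum_image]
    · rfl
    · intro r _ r' _ hrr
      simp only at hrr
      apply Fin.ext
      have h1 := congrArg (fun t => t % h) hrr
      simp only [Nat.add_mul_mod_self_left, Nat.mod_eq_of_lt r.2, Nat.mod_eq_of_lt r'.2] at h1
      exact h1
  rw [key, key] at hJ
  have h2 := Finset.geomSum_injective (n := 2) le_rfl hJ
  funext r
  have h3 : r.1 + h * (J r).val ∈ univ.image (fun r : Fin h => r.1 + h * (J' r).val) := by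
    rw [← h2]
    exact mem_image_of_mem _ (mem_univ r)
  obtain ⟨r', _, hr'⟩ := mem_image.mp h3
  have h4 : r' = r := by
    apply Fin.ext
    have h1 := congrArg (fun t => t % h) hr'
    simp only [Nat.add_mul_mod_self_left, Nat.mod_eq_of_lt r.2, Nat.mod_eq_of_lt r'.2] at h1
    exact h1
  subst h4
  have hpos : 0 < h := lt_of_le_of_lt (Nat.zero_le _) r'.2
  have h5 : h * (J' r').val = h * (J r').val := by omega
  have h6 := Nat.eq_of_mul_eq_mul_left hpos h5
  exact (ZMod.val_injective 3 h6).symm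

lemma sum_two_pow (h : ℕ) : ∑ r : Fin h, 2 ^ r.1 = 2 ^ h - 1 := by
  rw [Fin.sum_univ_eq_sum_range (fun r => 2 ^ r) h, Nat.geomSum_eq le_rfl]
  simp

lemma S_pos (h : ℕ) (hh : 0 < h) (J : Fin h → ZMod 3) : 0 < S h J := by
  apply sum_pos
  · intro r _; positivity
  · exact ⟨⟨0, hh⟩, mem_univ _⟩

lemma S_lt (h : ℕ) (hh : 2 ≤ h) (J : Fin h → ZMod 3) : S h J < 2 ^ (3 * h) - 1 := by
  have h1 : S h J ≤ ∑ r : Fin h, 2 ^ r.1 * 2 ^ (2 * h) := by
    apply sum_le_sum
    intro r _
    rw [← pow_add]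
    apply Nat.pow_le_pow_right (by norm_num)
    have := val_lt (J r)
    have h2 : h * (J r).val ≤ h * 2 := Nat.mul_le_mul_left _ (by omega)
    omega
  rw [← sum_mul, sum_two_pow] at h1
  have h2 : 2 ^ (3 * h) = 2 ^ h * 2 ^ (2 * h) := by rw [← pow_add]; congr 1; ring
  have h3 : (2 ^ h - 1) * 2 ^ (2 * h) = 2 ^ h * 2 ^ (2 * h) - 2 ^ (2 * h) := by
    rw [Nat.sub_mul, one_mul]
  rw [h3, ← h2] at h1
  have h4 : 2 ^ 1 ≤ 2 ^ (2 * h) := Nat.pow_le_pow_right (by norm_num) (by omega)
  have h5 : 2 ^ (2 * h) ≤ 2 ^ (3 * h) := Nat.pow_le_pow_right (by norm_num) (by omega)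
  omega

lemma pow_mod (h t : ℕ) : 2 ^ (t + 3 * h) ≡ 2 ^ t [MOD 2 ^ (3 * h) - 1] := by
  have h1 : 2 ^ (3 * h) ≡ 1 [MOD 2 ^ (3 * h) - 1] := by
    have : 1 ≤ 2 ^ (3 * h) := Nat.one_le_two_pow
    exact (Nat.modEq_of_dvd (by
      push_cast [Nat.cast_sub this]
      exact ⟨-1, by ring⟩))
  rw [pow_add]
  simpa using Nat.ModEq.mul_left (2 ^ t) h1

/-- Shifting blocks: `2 ^ (r + h (x + y))` depends on `x + y` modulo 3 only. -/
lemma block_add (h r : ℕ) (x y : ZMod 3) :
    2 ^ (r + h * (x.val + y.val)) ≡ 2 ^ (r + h * (x + y).val) [MOD 2 ^ (3 * h) - 1] := by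
  rw [ZMod.val_add]
  rcases Nat.lt_or_ge (x.val + y.val) 3 with hlt | hge
  · rw [Nat.mod_eq_of_lt hlt]
  · have hx := val_lt x
    have hy := val_lt y
    have e : (x.val + y.val) % 3 = x.val + y.val - 3 := by omega
    rw [e]
    have e2 : r + h * (x.val + y.val) = (r + h * (x.val + y.val - 3)) + 3 * h := by
      obtain ⟨k, hk⟩ : ∃ k, x.val + y.val = k + 3 := ⟨x.val + y.val - 3, by omega⟩
      rw [hk, Nat.add_sub_cancel]
      ring
    rw [e2]
    exact pow_mod h _

section field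

variable {K : Type} [Field K] [Fintype K]

lemma sum_pow_all {n : ℕ} (hn : Fintype.card K = n + 1) (m : ℕ) (hm : m ≠ 0) :
    ∑ x : K, x ^ m = if n ∣ m then -1 else 0 := by
  classical
  let φ : Kˣ ↪ K := ⟨fun x ↦ x, Units.val_injective⟩
  have e : univ.map φ = univ \ {0} := by
    ext x
    simpa only [mem_map, mem_univ, Function.Embedding.coeFn_mk, true_and, mem_sdiff,
      mem_singleton, φ] using! isUnit_iff_ne_zero
  calc
    ∑ x : K, x ^ m = ∑ x ∈ univ \ {(0 : K)}, x ^ m := by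
      rw [← sum_sdiff ({0} : Finset K).subset_univ, sum_singleton, zero_pow hm, add_zero]
    _ = ∑ x : Kˣ, (x ^ m : K) := by simp [φ, ← e, univ.sum_map φ]
    _ = if n ∣ m then -1 else 0 := by
      rw [FiniteField.sum_pow_units K m, hn, Nat.add_sub_cancel]

/-- The linearised polynomial. -/
def L (q : ℕ) (c : ZMod 3 → K) (w : K) : K := ∑ j : ZMod 3, c j * w ^ q ^ j.val

variable [CharP K 2]

omit [Fintype K] in
lemma L_pow (h t : ℕ) (c : ZMod 3 → K) (w : K) :
    L (2 ^ h) c w ^ 2 ^ t = ∑ j : ZMod 3, c j ^ 2 ^ t * w ^ 2 ^ (t + h * j.val) := by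
  rw [L, sum_pow_char_pow]
  refine sum_congr rfl (fun j _ => ?_)
  rw [mul_pow]
  congr 1
  rw [← pow_mul, ← pow_mul, ← pow_add]
  congr 2
  ring

/-- The key product formula. -/
lemma hermite (h : ℕ) (hh : 2 ≤ h) (hK : Fintype.card K = 2 ^ (3 * h)) (c : ZMod 3 → K)
    (hL : ∀ w, w ≠ 0 → L (2 ^ h) c w ≠ 0)
    (hinj : ∀ w w', w ≠ 0 → w' ≠ 0 → L (2 ^ h) c w * w' ^ 2 = L (2 ^ h) c w' * w ^ 2 → w = w')
    (I : Fin h → ZMod 3) (hI : ∑ r, I r = 1) : ∃ r, c (I r) = 0 := by
  classical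
  set n := 2 ^ (3 * h) - 1 with hn
  have hcard : Fintype.card K = n + 1 := by
    rw [hK, hn]
    have : 1 ≤ 2 ^ (3 * h) := Nat.one_le_two_pow
    omega
  -- the exponents
  let P : ℕ → ZMod 3 := fun r => ∑ s ∈ range r, if hs : s < h then I ⟨s, hs⟩ else 0
  have hPs : ∀ r : Fin h, P (r.1 + 1) = P r.1 + I r := by
    intro r
    simp only [P]
    rw [sum_range_succ, dif_pos r.2]
  have hPh : P h = 1 := by
    rw [← hI]
    simp only [P]
    rw [← Fin.sum_univ_eq_sum_range (fun s => if hs : s < h then I ⟨s, hs⟩ else 0) h]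
    refine sum_congr rfl (fun r _ => ?_)
    rw [dif_pos r.2]
  have h0 : 0 < h := by omega
  let I0 : ZMod 3 := I ⟨0, h0⟩
  let ε : Fin h → ZMod 3 := fun r => I0 - P (r.1 + 1)
  set e := S h ε with he
  have he0 : 0 < e := S_pos h h0 ε
  have hen : e < n := S_lt h hh ε
  -- the shifted digits
  let Js : Fin h → ZMod 3 := fun r => I0 - P r.1 + (if r.1 = 0 then 0 else 0)
  have hJs : ∀ r : Fin h, Js r = ε r + I r := by
    intro r
    simp only [Js, ε, hPs]
    split_ifs <;> ring
  have h2e : 2 * e ≡ S h Js [MOD n] := by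
    -- `2 e = ∑ 2 ^ (r + 1 + h ε_r)`
    have e1 : 2 * e = ∑ r : Fin h, 2 ^ (r.1 + 1 + h * (ε r).val) := by
      rw [he, S, mul_sum]
      refine sum_congr rfl (fun r _ => ?_)
      rw [show r.1 + 1 + h * (ε r).val = (r.1 + h * (ε r).val) + 1 by ring, pow_succ]
      ring
    rw [e1, S]
    -- split off the last, respectively the first term
    obtain ⟨g, rfl⟩ : ∃ g, h = g + 1 := ⟨h - 1, by omega⟩
    rw [Fin.sum_univ_castSucc, Fin.sum_univ_succ (fun r : Fin (g + 1) =>
      2 ^ (r.1 + (g + 1) * (Js r).val))]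
    have e2 : ∀ r : Fin g, 2 ^ ((Fin.castSucc r).1 + 1 + (g + 1) * (ε (Fin.castSucc r)).val) =
        2 ^ ((Fin.succ r).1 + (g + 1) * (Js (Fin.succ r)).val) := by
      intro r
      have : ε (Fin.castSucc r) = Js (Fin.succ r) := by
        simp only [ε, Js, Fin.val_castSucc, Fin.val_succ]
        simp
      rw [this]
      congr 1
    rw [sum_congr rfl (fun r _ => e2 r), add_comm]
    apply Nat.ModEq.add_right
    -- the last term
    have e3 : ε (Fin.last g) = Js 0 - 1 := by
      simp only [ε, Js, Fin.val_last, hPh, Fin.val_zero]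
      simp [P]
    have e4 : (Fin.last g).1 + 1 + (g + 1) * (ε (Fin.last g)).val =
        0 + (g + 1) * ((ε (Fin.last g)).val + (1 : ZMod 3).val) := by
      have : (1 : ZMod 3).val = 1 := rfl
      rw [this, Fin.val_last]
      ring
    rw [e4]
    refine (block_add (g + 1) 0 _ _).trans ?_
    rw [e3, sub_add_cancel]
    rfl
  -- the power sum
  have hbij : Function.Bijective (fun w : Kˣ => Units.mk0 (L (2 ^ h) c w / (w : K) ^ 2)
      (div_ne_zero (hL w w.ne_zero) (pow_ne_zero 2 w.ne_zero))) := by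
    rw [Fintype.bijective_iff_injective_and_card]
    refine ⟨?_, rfl⟩
    intro w w' hww
    have h1 := congrArg (fun u : Kˣ => (u : K)) hww
    simp only [Units.val_mk0] at h1
    rw [div_eq_div_iff (pow_ne_zero 2 w.ne_zero) (pow_ne_zero 2 w'.ne_zero)] at h1
    exact Units.ext (hinj w w' w.ne_zero w'.ne_zero h1)
  have hsum0 : ∑ w : Kˣ, (L (2 ^ h) c w / (w : K) ^ 2) ^ e = 0 := by
    have h1 : ∑ w : Kˣ, (L (2 ^ h) c w / (w : K) ^ 2) ^ e = ∑ x : Kˣ, (x ^ e : K) := by
      rw [← Function.Bijective.sum_comp hbij (fun x : Kˣ => (x ^ e : K))]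
      rfl
    rw [h1, FiniteField.sum_pow_units K e, hcard, Nat.add_sub_cancel, if_neg]
    intro hdvd
    exact absurd (Nat.le_of_dvd he0 hdvd) (by omega)
  have hsum : ∑ w : K, L (2 ^ h) c w ^ e * w ^ (2 * (n - e)) = 0 := by
    let φ : Kˣ ↪ K := ⟨fun x ↦ x, Units.val_injective⟩
    have em : univ.map φ = univ \ {0} := by
      ext x
      simpa only [mem_map, mem_univ, Function.Embedding.coeFn_mk, true_and, mem_sdiff,
        mem_singleton, φ] using! isUnit_iff_ne_zero
    rw [← hsum0, ← sum_sdiff ({0} : Finset K).subset_univ, sum_singleton,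
      zero_pow (by omega : 2 * (n - e) ≠ 0), mul_zero, add_zero, ← em, sum_map]
    refine sum_congr rfl (fun w _ => ?_)
    change L (2 ^ h) c (w : K) ^ e * (w : K) ^ (2 * (n - e)) = _
    rw [div_pow, eq_div_iff (pow_ne_zero _ (pow_ne_zero _ w.ne_zero)), mul_assoc, ← pow_mul,
      ← pow_add]
    have e5 : 2 * (n - e) + 2 * e = n * 2 := by omega
    rw [e5, pow_mul]
    have e6 : (w : K) ^ n = 1 := by
      have := FiniteField.pow_card_sub_one_eq_one (w : K) w.ne_zero
      rwa [hcard, Nat.add_sub_cancel] at this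
    rw [e6, one_pow, mul_one]
  -- expansion
  have hexp : ∀ w : K, L (2 ^ h) c w ^ e = ∑ x : Fin h → ZMod 3,
      (∏ r, c (x r) ^ 2 ^ (r.1 + h * (ε r).val)) *
        w ^ (∑ r : Fin h, 2 ^ (r.1 + h * (ε r).val + h * (x r).val)) := by
    intro w
    rw [he, S, ← prod_pow_eq_pow_sum]
    simp_rw [L_pow]
    rw [prod_univ_sum]
    rw [Fintype.piFinset_univ]
    refine sum_congr rfl (fun x _ => ?_)
    rw [prod_mul_distrib, prod_pow_eq_pow_sum]
  simp_rw [hexp, sum_mul] at hsum
  rw [sum_comm] at hsum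
  have hterm : ∀ x : Fin h → ZMod 3, ∑ w : K, (∏ r, c (x r) ^ 2 ^ (r.1 + h * (ε r).val)) *
      w ^ (∑ r : Fin h, 2 ^ (r.1 + h * (ε r).val + h * (x r).val)) * w ^ (2 * (n - e)) =
      if x = I then -(∏ r, c (I r) ^ 2 ^ (r.1 + h * (ε r).val)) else 0 := by
    intro x
    simp_rw [mul_assoc, ← pow_add]
    rw [← mul_sum]
    set E := ∑ r : Fin h, 2 ^ (r.1 + h * (ε r).val + h * (x r).val) with hE
    rw [sum_pow_all hcard _ (by omega)]
    have hES : E ≡ S h (fun r => ε r + x r) [MOD n] := by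
      rw [hE, S]
      apply Nat.ModEq.sum
      intro r _
      rw [add_assoc, ← mul_add]
      exact block_add h r.1 (ε r) (x r)
    have hiff : n ∣ E + 2 * (n - e) ↔ x = I := by
      have h1 : n ∣ E + 2 * (n - e) ↔ E ≡ 2 * e [MOD n] := by
        constructor
        · intro hd
          have h3 : E + 2 * (n - e) ≡ 0 [MOD n] := (Nat.modEq_zero_iff_dvd).mpr hd
          have h4 : 2 * e + 2 * (n - e) ≡ 0 [MOD n] := by
            rw [Nat.modEq_zero_iff_dvd]
            exact ⟨2, by omega⟩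
          exact Nat.ModEq.add_right_cancel' _ (h3.trans h4.symm)
        · intro hm
          have h3 := Nat.ModEq.add_right (2 * (n - e)) hm
          rw [← Nat.modEq_zero_iff_dvd]
          refine h3.trans ?_
          rw [Nat.modEq_zero_iff_dvd]
          exact ⟨2, by omega⟩
      rw [h1]
      constructor
      · intro hm
        have h3 : S h (fun r => ε r + x r) ≡ S h Js [MOD n] := hES.symm.trans (hm.trans h2e)
        have h4 : S h (fun r => ε r + x r) = S h Js :=
          Nat.ModEq.eq_of_lt_of_lt h3 (S_lt h hh _) (S_lt h hh _)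
        have h5 := S_inj h h4
        funext r
        have h6 := congrFun h5 r
        simp only [hJs] at h6
        exact add_left_cancel h6
      · rintro rfl
        refine hES.trans (Nat.ModEq.trans ?_ h2e.symm)
        have : (fun r => ε r + x r) = Js := by
          funext r
          exact (hJs r).symm
        rw [this]
    by_cases hxI : x = I
    · rw [if_pos (hiff.mpr hxI), if_pos hxI, hxI]
      ring
    · rw [if_neg (fun hd => hxI (hiff.mp hd)), if_neg hxI, mul_zero]
  rw [sum_congr rfl (fun x _ => hterm x), sum_ite_eq' univ I, if_pos (mem_univ _),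
    neg_eq_zero, prod_eq_zero_iff] at hsum
  obtain ⟨r, _, hr⟩ := hsum
  exact ⟨r, (pow_eq_zero_iff (by positivity)).mp hr⟩

/-- At most one coefficient is nonzero. -/
lemma monomial (h : ℕ) (hh : 2 ≤ h) (hK : Fintype.card K = 2 ^ (3 * h)) (c : ZMod 3 → K)
    (hL : ∀ w, w ≠ 0 → L (2 ^ h) c w ≠ 0)
    (hinj : ∀ w w', w ≠ 0 → w' ≠ 0 → L (2 ^ h) c w * w' ^ 2 = L (2 ^ h) c w' * w ^ 2 → w = w')
    (x y : ZMod 3) (hxy : x ≠ y) : c x = 0 ∨ c y = 0 := by
  set b : ZMod 3 := (1 - (h : ZMod 3) * x) * (y - x) with hb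
  have hbv := val_lt b
  obtain ⟨r, hr⟩ := hermite h hh hK c hL hinj (fun r => if r.1 < b.val then y else x) (by
    have e : ∀ r : Fin h, (if r.1 < b.val then y else x) =
        x + (if r.1 < b.val then (y - x) else 0) := by
      intro r
      split_ifs <;> ring
    rw [sum_congr rfl (fun r _ => e r), sum_add_distrib, sum_const, card_univ, Fintype.card_fin,
      nsmul_eq_mul, Fin.sum_univ_eq_sum_range (fun r => if r < b.val then (y - x) else 0) h]
    have e2 : (range h).filter (fun r => r < b.val) = range b.val := by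
      ext r
      simp only [mem_filter, mem_range]
      omega
    rw [← sum_filter, e2, sum_const, card_range, nsmul_eq_mul, ZMod.natCast_zmod_val, hb]
    have e3 : ∀ z : ZMod 3, z ≠ 0 → z * z = 1 := by decide
    have e4 := e3 (y - x) (sub_ne_zero.mpr hxy.symm)
    linear_combination (1 - (h : ZMod 3) * x) * e4)
  by_cases hlt : r.1 < b.val
  · simp only [hlt, if_true] at hr
    exact Or.inr hr
  · simp only [hlt, if_false] at hr
    exact Or.inl hr

end field

end Pool.Agent.V11162.Hermite3
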